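import Mathlib

/-!
The `k`-dimensional Weisfeiler-Leman method: colours as nested data, and a sufficient condition
(a bijective game strategy) for equality of colours after every number of rounds.
-/

set_option autoImplicit false

namespace Pool.Agent.WLSRG

/-- Colours after `n` rounds of the `k`-dimensional WL method (nested data). -/
def Col (k : ℕ) : ℕ → Type
  | 0 => Fin k → Fin k → Prop × Prop
  | n + 1 => Col k n × Multiset (Fin k → Col k n)

/-- The colour of the `k`-tuple `S` after `n` rounds: initially the isomorphism type of `S`; one
round replaces the colour by the pair (old colour, multiset over all vertices `x` of the list of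
the old colours of the `k` tuples obtained from `S` by replacing one coordinate by `x`). -/
def wl (k : ℕ) {V : Type*} [Fintype V] (G : SimpleGraph V) : (n : ℕ) → (Fin k → V) → Col k n
  | 0, S => fun i j => (S i = S j, G.Adj (S i) (S j))
  | n + 1, S => (wl k G n S,
      (Finset.univ : Finset V).val.map fun x => fun i => wl k G n (Function.update S i x))

theorem wl_eq_of_rel {k : ℕ} {V W : Type*} [Fintype V] [Fintype W] (G : SimpleGraph V)
    (H : SimpleGraph W) (R : (Fin k → V) → (Fin k → W) → Prop)
    (h0 : ∀ S S', R S S' → ∀ i j, (S i = S j ↔ S' i = S' j) ∧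
      (G.Adj (S i) (S j) ↔ H.Adj (S' i) (S' j)))
    (h1 : ∀ S S', R S S' → ∃ e : V ≃ W, ∀ x i, R (Function.update S i x)
      (Function.update S' i (e x))) :
    ∀ n S S', R S S' → wl k G n S = wl k H n S' := by
  intro n
  induction n with
  | zero =>
    intro S S' h
    funext i j
    obtain ⟨a, b⟩ := h0 S S' h i j
    exact Prod.ext (propext a) (propext b)
  | succ n ih =>
    intro S S' h
    refine Prod.ext (ih S S' h) ?_
    obtain ⟨e, he⟩ := h1 S S' h
    show (Finset.univ : Finset V).val.map _ = (Finset.univ : Finset W).val.map _
    have h2 : (Finset.univ : Finset W).val = (Finset.univ : Finset V).val.map e := by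
      rw [← Finset.map_univ_equiv e]; rfl
    rw [h2, Multiset.map_map]
    refine Multiset.map_congr rfl fun x _ => ?_
    funext i
    exact ih _ _ (he x i)

end Pool.Agent.WLSRG
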