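import Pool.Agent.WLSRG.Free2
import Pool.Agent.WLSRG.WL

/-!
The duplicator strategy on `gr (cf 0)` and `gr (cf (Pi.single b0 1))`.
-/

set_option autoImplicit false
set_option linter.unusedSectionVars false

open Finset Classical

namespace Pool.Agent.WLSRG

variable {U : Type*} [AddCommGroup U] [Module (ZMod 2) U] [DecidableEq U]

variable (U) in
/-- vertices -/
abbrev Vt := Vx (U × Qs U)

/-- shear of `U × Q` -/
def shl (f : U →ₗ[ZMod 2] Qs U) : (U × Qs U) →ₗ[ZMod 2] (U × Qs U) where
  toFun v := (v.1, v.2 + f v.1)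
  map_add' v w := by
    ext
    · rfl
    · simp only [Prod.snd_add, Prod.fst_add, map_add, Submodule.coe_add, Pi.add_apply]; ring
  map_smul' a v := by
    ext
    · rfl
    · simp only [Prod.smul_snd, Prod.smul_fst, map_smul, Submodule.coe_add, Submodule.coe_smul,
        Pi.add_apply, Pi.smul_apply, RingHom.id_apply, smul_eq_mul]; ring

theorem shl_apply (f : U →ₗ[ZMod 2] Qs U) (v : U × Qs U) : shl f v = (v.1, v.2 + f v.1) := rfl

/-- action of shears on the vertices -/
def act (f : U →ₗ[ZMod 2] Qs U) (p : Vt U) : Vt U := (shl f p.1, p.2.comp (shl f))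

theorem act_add (f g : U →ₗ[ZMod 2] Qs U) (p : Vt U) : act (f + g) p = act f (act g p) := by
  unfold act
  refine Prod.ext ?_ ?_
  · show shl (f + g) p.1 = shl f (shl g p.1)
    simp only [shl_apply, LinearMap.add_apply]
    refine Prod.ext rfl ?_
    show p.1.2 + (f p.1.1 + g p.1.1) = p.1.2 + g p.1.1 + f p.1.1
    abel
  · show p.2.comp (shl (f + g)) = (p.2.comp (shl g)).comp (shl f)
    apply LinearMap.ext
    intro v
    show p.2 (shl (f + g) v) = p.2 (shl g (shl f v))
    congr 1
    simp only [shl_apply, LinearMap.add_apply]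
    refine Prod.ext rfl ?_
    show v.2 + (f v.1 + g v.1) = v.2 + f v.1 + g v.1
    abel

theorem act_zero (p : Vt U) : act 0 p = p := by
  unfold act
  have : shl (0 : U →ₗ[ZMod 2] Qs U) = LinearMap.id := by
    apply LinearMap.ext
    intro v
    rw [shl_apply, LinearMap.zero_apply, add_zero]; rfl
  rw [this]; rfl

theorem act_act (f : U →ₗ[ZMod 2] Qs U) (p : Vt U) : act f (act f p) = p := by
  rw [← act_add, add_self_V, act_zero]

/-- the type of a vertex -/
def ty (p : Vt U) : Ty U := (p.1.1, p.2.comp (LinearMap.inr (ZMod 2) U (Qs U)))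

theorem ty_act (f : U →ₗ[ZMod 2] Qs U) (p : Vt U) : ty (act f p) = ty p := by
  unfold ty act
  refine Prod.ext rfl ?_
  apply LinearMap.ext
  intro y
  show p.2 (shl f (0, y)) = p.2 (0, y)
  rw [shl_apply]
  simp only [map_zero, add_zero]

theorem act_fix {T : Finset (Ty U)} {f : U →ₗ[ZMod 2] Qs U} (hf : f ∈ Wt T) {p : Vt U}
    (hp : ty p ∈ T) : act f p = p := by
  obtain ⟨h1, h2⟩ := hf _ hp
  have h1' : f p.1.1 = 0 := h1
  have h2' : ∀ u, p.2 (0, f u) = 0 := h2
  unfold act
  refine Prod.ext ?_ ?_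
  · rw [shl_apply, h1', add_zero]
  · apply LinearMap.ext
    intro v
    show p.2 (v.1, v.2 + f v.1) = p.2 v
    have : (v.1, v.2 + f v.1) = v + (0, f v.1) := by
      refine Prod.ext ?_ rfl
      simp
    rw [this, map_add, h2', add_zero]

theorem cf_shl {f : U →ₗ[ZMod 2] Qs U} {b b0 : U}
    (hf : dl f = Pi.single b 1 + Pi.single b0 1) (v : U × Qs U) (hv : v.1 ≠ b) :
    cf (Pi.single b0 1) (shl f v) = cf 0 v := by
  obtain ⟨u, y⟩ := v
  simp only at hv
  rw [shl_apply]
  by_cases hu : u = 0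
  · subst hu
    simp only [map_zero, add_zero]
    rw [cf_zero, cf_zero]
  · rw [cf_ne hu, cf_ne hu]
    have h1 := congrFun hf u
    rw [dl_apply, Pi.add_apply, Pi.single_apply, if_neg hv, zero_add] at h1
    simp only [Submodule.coe_add, Pi.add_apply, h1, Pi.zero_apply, add_zero]
    rw [add_assoc, add_self2, add_zero]

theorem ex_act {f : U →ₗ[ZMod 2] Qs U} {b b0 : U}
    (hf : dl f = Pi.single b 1 + Pi.single b0 1) (p q : Vt U) (hp : p.1.1 ≠ b) (hq : q.1.1 ≠ b) :
    ex (cf (Pi.single b0 1)) (act f p) (act f q) = ex (cf 0) p q := by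
  unfold ex
  have h1 : (act f p).1 = shl f p.1 := rfl
  have h2 : (act f q).1 = shl f q.1 := rfl
  have h3 : (act f p).2 = p.2.comp (shl f) := rfl
  have h4 : (act f q).2 = q.2.comp (shl f) := rfl
  rw [h1, h2, h3, h4, cf_shl hf _ hp, cf_shl hf _ hq]
  congr 1
  have h5 : ∀ v, shl f (shl f v) = v := by
    intro v
    rw [shl_apply, shl_apply]
    simp only
    rw [add_assoc, add_self_V, add_zero]
  rw [LinearMap.add_apply, LinearMap.comp_apply, LinearMap.comp_apply, ← map_add, h5,
    LinearMap.add_apply]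

variable [Fintype U]

/-- types of a tuple -/
noncomputable def tys {k : ℕ} (S : Fin k → Vt U) : Finset (Ty U) := univ.image (fun i => ty (S i))

theorem card_tys {k : ℕ} (S : Fin k → Vt U) : (tys S).card ≤ k := by
  refine Finset.card_image_le.trans ?_
  simp

/-- the winning positions of the duplicator -/
def Rel (k : ℕ) (b0 : U) (S S' : Fin k → Vt U) : Prop :=
  ∃ (f : U →ₗ[ZMod 2] Qs U) (b : U), dl f = Pi.single b 1 + Pi.single b0 1 ∧ free (tys S) b ∧
    ∀ i, S' i = act f (S i)

theorem rel_atom {k : ℕ} (h2 : 2 ≤ Fintype.card U) (b0 : U) (S S' : Fin k → Vt U)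
    (h : Rel k b0 S S') (i j : Fin k) : (S i = S j ↔ S' i = S' j) ∧
      ((gr (cf 0)).Adj (S i) (S j) ↔ (gr (cf (Pi.single b0 1))).Adj (S' i) (S' j)) := by
  obtain ⟨f, b, hf, hb, hS⟩ := h
  have hne : ∀ i, (S i).1.1 ≠ b := fun i =>
    free_ne h2 hb (τ := ty (S i)) (Finset.mem_image_of_mem _ (Finset.mem_univ i))
  have heq : S i = S j ↔ S' i = S' j := by
    rw [hS, hS]
    constructor
    · intro h; rw [h]
    · intro h
      have := congrArg (act f) h
      rwa [act_act, act_act] at this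
  refine ⟨heq, ?_⟩
  show (S i ≠ S j ∧ ex (cf 0) (S i) (S j) = 0) ↔
    (S' i ≠ S' j ∧ ex (cf (Pi.single b0 1)) (S' i) (S' j) = 0)
  rw [ne_eq, ne_eq, heq, hS i, hS j, ex_act hf _ _ (hne i) (hne j)]

theorem rel_step {k : ℕ} (hU : 4 ^ (k + 3) ≤ Fintype.card U) (b0 : U) (S S' : Fin k → Vt U)
    (h : Rel k b0 S S') : ∃ e : Vt U ≃ Vt U, ∀ x i,
      Rel k b0 (Function.update S i x) (Function.update S' i (e x)) := by
  obtain ⟨f, b, hf, hb, hS⟩ := h
  have h1 : ∀ τ : Ty U, ∃ (g : U →ₗ[ZMod 2] Qs U) (c : U), free (insert τ (tys S)) c ∧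
      g ∈ Wt (tys S) ∧ dl g = Pi.single b 1 + Pi.single c 1 := by
    intro τ
    obtain ⟨c, hc⟩ := exists_free (insert τ (tys S)) (k + 1)
      ((Finset.card_insert_le _ _).trans (Nat.succ_le_succ (card_tys S))) hU
    obtain ⟨g, hg, hg2⟩ := eqv_of_free hb (free_mono (Finset.subset_insert τ (tys S)) hc)
    exact ⟨g, c, hc, hg, hg2⟩
  choose g c hc hg hg2 using h1
  have hinv : Function.Involutive (fun p : Vt U => act (f + g (ty p)) p) := by
    intro p
    show act (f + g (ty (act (f + g (ty p)) p))) (act (f + g (ty p)) p) = p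
    rw [ty_act, act_act]
  refine ⟨hinv.toPerm, fun x i => ⟨f + g (ty x), c (ty x), ?_, ?_, ?_⟩⟩
  · rw [map_add, hf, hg2]
    calc (Pi.single b 1 + Pi.single b0 1 : U → ZMod 2) + (Pi.single b 1 + Pi.single (c (ty x)) 1) =
        Pi.single (c (ty x)) 1 + Pi.single b0 1 + (Pi.single b 1 + Pi.single b 1) := by abel
      _ = _ := by rw [add_self_V, add_zero]
  · refine free_mono ?_ (hc (ty x))
    intro τ hτ
    obtain ⟨j, _, rfl⟩ := Finset.mem_image.1 hτ
    by_cases hj : j = i
    · subst hj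
      simp only [Function.update_self]
      exact Finset.mem_insert_self _ _
    · simp only [Function.update_of_ne hj]
      exact Finset.mem_insert_of_mem (Finset.mem_image_of_mem _ (Finset.mem_univ j))
  · intro j
    by_cases hj : j = i
    · subst hj
      simp only [Function.update_self]
      rfl
    · simp only [Function.update_of_ne hj]
      rw [hS j, act_add, act_fix (hg (ty x)) (Finset.mem_image_of_mem _ (Finset.mem_univ j))]

theorem reach_all {b b0 : U} (hb : b ≠ 0) (hb0 : b0 ≠ 0) :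
    ∃ f : U →ₗ[ZMod 2] Qs U, dl f = Pi.single b 1 + Pi.single b0 1 := by
  have h : eqv (∅ : Finset (Ty U)) b b0 := by
    apply eqv_of
    intro x hx
    by_cases hbb : b = b0
    · rw [hbb]
    obtain ⟨l, hl1, hl2⟩ : ∃ l : Du U, l b = 1 ∧ l b0 = 1 := by
      have h01 : ∀ z : ZMod 2, z ≠ 0 → z = 1 := by decide
      have sep : ∀ v : U, v ≠ 0 → ∃ l : Du U, l v = 1 := by
        intro v hv
        by_contra hc
        push Not at hc
        apply hv
        apply (Module.forall_dual_apply_eq_zero_iff (ZMod 2) v).1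
        intro l
        by_contra h
        exact hc l (h01 _ h)
      obtain ⟨l, hl⟩ := sep b hb
      obtain ⟨l', hl'⟩ := sep b0 hb0
      by_cases h1 : l b0 = 0
      · by_cases h2 : l' b = 0
        · exact ⟨l + l', by rw [LinearMap.add_apply, hl, h2, add_zero],
            by rw [LinearMap.add_apply, hl', h1, zero_add]⟩
        · exact ⟨l', h01 _ h2, hl'⟩
      · exact ⟨l, hl, h01 _ h1⟩
    have h1 := hx (l.smulRight (⟨lw b b0, lw_mem hb hb0 hbb⟩ : Qs U)) (by
      intro τ hτ; exact absurd hτ (Finset.notMem_empty _))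
    simp only [dl_apply, LinearMap.smulRight_apply, Submodule.coe_smul, Pi.smul_apply, smul_eq_mul,
      lw_apply, mul_add, mul_ite, mul_one, mul_zero, Finset.sum_add_distrib,
      Finset.sum_ite_eq', Finset.mem_univ, if_true, map_add, hl1, hl2] at h1
    linear_combination h1 - (x b0 + x (b + b0)) * two0
  obtain ⟨f, _, hf⟩ := h
  exact ⟨f, hf⟩

/-- all colours of `k`-tuples agree after a permutation of the `k`-tuples -/
theorem wl_equal (k : ℕ) (hU : 4 ^ (k + 3) ≤ Fintype.card U) {b0 : U} (hb0 : b0 ≠ 0) :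
    ∃ E : (Fin k → Vt U) ≃ (Fin k → Vt U), ∀ n S,
      wl k (gr (cf (U := U) 0)) n S = wl k (gr (cf (U := U) (Pi.single b0 1))) n (E S) := by
  have h2 : 2 ≤ Fintype.card U := by
    refine le_trans ?_ hU
    calc 2 ≤ 4 ^ 1 := by norm_num
      _ ≤ 4 ^ (k + 3) := Nat.pow_le_pow_right (by norm_num) (by omega)
  have h1 : ∀ σ : Fin k → Ty U, ∃ (f : U →ₗ[ZMod 2] Qs U) (b : U),
      dl f = Pi.single b 1 + Pi.single b0 1 ∧ free (univ.image σ) b := by
    intro σ
    obtain ⟨b, hb⟩ := exists_free (univ.image σ) (k + 1)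
      ((Finset.card_image_le).trans (by simp)) hU
    obtain ⟨f, hf⟩ := reach_all hb.1 hb0
    exact ⟨f, b, hf, hb⟩
  choose f b hf hb using h1
  have hinv : Function.Involutive (fun S : Fin k → Vt U => fun i =>
      act (f (fun j => ty (S j))) (S i)) := by
    intro S
    funext i
    have h3 : (fun j => ty (act (f (fun j => ty (S j))) (S j))) = fun j => ty (S j) := by
      funext j; rw [ty_act]
    show act (f (fun j => ty (act (f (fun j => ty (S j))) (S j))))
      (act (f (fun j => ty (S j))) (S i)) = S i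
    rw [h3, act_act]
  refine ⟨hinv.toPerm, fun n S => ?_⟩
  refine wl_eq_of_rel _ _ (Rel k b0) (rel_atom h2 b0) (rel_step hU b0) n S _ ?_
  exact ⟨f (fun j => ty (S j)), b (fun j => ty (S j)), hf _, hb _, fun i => rfl⟩

end Pool.Agent.WLSRG
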