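import Pool.Agent.WLSRG.NonEq

/-!
`cf 0` and `cf (Pi.single b0 1)` are not affinely equivalent (modulo affine functions).
-/

set_option autoImplicit false
set_option linter.unusedSectionVars false

open Finset

namespace Pool.Agent.WLSRG

variable {U : Type*} [AddCommGroup U] [Module (ZMod 2) U] [DecidableEq U] [Fintype U]

theorem noneq (h16 : 16 ≤ Fintype.card U) {b0 : U} (hb0 : b0 ≠ 0)
    (α : U × Qs U → U × Qs U) (hbij : Function.Bijective α)
    (hadd : ∀ a b, α (a + b) = α a + α b + α 0)
    (hg : ∀ v w m, (cf (Pi.single b0 1) (α (v + w + m)) + cf 0 (v + w + m)) =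
        (cf (Pi.single b0 1) (α v) + cf 0 v) + (cf (Pi.single b0 1) (α w) + cf 0 w) +
        (cf (Pi.single b0 1) (α m) + cf 0 m)) : False := by
  set c1 : U × Qs U → ZMod 2 := cf (Pi.single b0 1) with hc1
  set c0 : U × Qs U → ZMod 2 := cf 0 with hc0
  set A : U × Qs U → U × Qs U := fun v => α v + α 0 with hA
  have hαA : ∀ x v, α (x + v) = α x + A v := by
    intro x v; rw [hadd]; simp only [hA]; abel
  have hAadd : ∀ v w, A (v + w) = A v + A w := by
    intro v w; simp only [hA]; rw [hadd]; abel
  have hA0 : A 0 = 0 := by simp only [hA]; exact add_self_V _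
  -- S-sums
  have hS : ∀ v, |Sm (Pi.single b0 1) (A v)| = |Sm 0 v| := by
    intro v
    have h1 : Sm (Pi.single b0 1) (A v) = ∑ x, sg (c1 (α x + A v) + c1 (α x)) := by
      unfold Sm
      exact (Equiv.sum_comp (Equiv.ofBijective α hbij)
        (fun z => sg (c1 (z + A v) + c1 z))).symm
    have h2 : ∀ x, sg (c1 (α x + A v) + c1 (α x)) =
        sg ((c1 (α v) + c0 v) + (c1 (α 0) + c0 0)) * sg (c0 (x + v) + c0 x) := by
      intro x
      rw [← sg_add, ← hαA]
      congr 1
      have h3 := hg x v 0
      rw [add_zero] at h3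
      linear_combination h3 + (c1 (α x) - c0 (x + v)) * two0
    rw [h1]
    simp only [h2, ← Finset.mul_sum]
    rw [abs_mul]
    have h4 : ∀ z : ZMod 2, |sg z| = 1 := by decide
    rw [h4, one_mul]
    rfl
  have hQpos : (0 : ℤ) < Fintype.card (Qs U) := by
    have : 0 < Fintype.card (Qs U) := Fintype.card_pos_iff.2 ⟨0⟩
    exact_mod_cast this
  have h16' : (16 : ℤ) ≤ Fintype.card U := by exact_mod_cast h16
  have hline : ∀ a b : U, (ha : a ≠ 0) → (hb : b ≠ 0) → (hab : a ≠ b) →
      (A (0, ⟨lw a b, lw_mem ha hb hab⟩)).1 = 0 := by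
    intro a b ha hb hab
    by_contra hne
    have h1 := hS (0, ⟨lw a b, lw_mem ha hb hab⟩)
    have h2 := Sm_line (0 : U → ZMod 2) ha hb hab
    have h3 := Sm_off h16 (Pi.single b0 1) hne (A (0, ⟨lw a b, lw_mem ha hb hab⟩)).2
    rw [Prod.mk.eta, h1] at h3
    have h4 := le_trans h2 (le_trans (le_abs_self _) h3)
    nlinarith
  have hAQ : ∀ q : Qs U, (A (0, q)).1 = 0 := by
    rintro ⟨q, hq⟩
    induction hq using Submodule.span_induction with
    | mem x h =>
      obtain ⟨a, b, ha, hb, hab, rfl⟩ := h
      exact hline a b ha hb hab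
    | zero =>
      have : ((0 : U), (⟨0, Submodule.zero_mem _⟩ : Qs U)) = 0 := rfl
      rw [this, hA0]; rfl
    | add x y hx hy ihx ihy =>
      have h1 : ((0 : U), (⟨x + y, Submodule.add_mem _ hx hy⟩ : Qs U)) =
          (0, ⟨x, hx⟩) + (0, ⟨y, hy⟩) := by
        rw [Prod.mk_add_mk, add_zero]; rfl
      rw [h1, hAadd, Prod.fst_add, ihx, ihy, add_zero]
    | smul a x hx ihx =>
      have ha : a = 0 ∨ a = 1 := by revert a; decide
      rcases ha with rfl | rfl
      · have h1 : ((0 : U), (⟨(0 : ZMod 2) • x, Submodule.smul_mem _ _ hx⟩ : Qs U)) = 0 := by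
          ext
          · rfl
          · simp
        rw [h1, hA0]; rfl
      · have h1 : ((0 : U), (⟨(1 : ZMod 2) • x, Submodule.smul_mem _ _ hx⟩ : Qs U)) =
            (0, ⟨x, hx⟩) := by
          ext
          · rfl
          · simp
        rw [h1, ihx]
  have hAinj : Function.Injective A := by
    intro v w h
    exact hbij.1 (add_right_cancel h)
  -- the restriction to Q is onto Q
  have hsur : ∀ q : Qs U, ∃ q' : Qs U, A (0, q') = (0, q) := by
    have h1 : Function.Injective (fun q : Qs U => (A (0, q)).2) := by
      intro q q' h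
      have h2 : A (0, q) = A (0, q') := Prod.ext ((hAQ q).trans (hAQ q').symm) h
      have h3 := hAinj h2
      exact (Prod.mk.inj h3).2
    have h2 := (Finite.injective_iff_surjective.1 h1)
    intro q
    obtain ⟨q', h⟩ := h2 q
    exact ⟨q', Prod.ext (hAQ q') h⟩
  -- second differences
  have hdd : ∀ x h k, c1 (α x + A h + A k) + c1 (α x + A h) + c1 (α x + A k) + c1 (α x) =
      c0 (x + h + k) + c0 (x + h) + c0 (x + k) + c0 x := by
    intro x h k
    have e1 : α x + A h + A k = α (x + h + k) := by rw [hαA, hαA]
    rw [e1, ← hαA, ← hαA]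
    have h1 := hg (x + h) (x + k) x
    have e2 : x + h + (x + k) + x = x + h + k := by
      calc x + h + (x + k) + x = (x + x) + (x + h + k) := by abel
        _ = _ := by rw [add_self_V, zero_add]
    rw [e2] at h1
    linear_combination h1 + (c1 (α (x + h)) + c1 (α (x + k)) + c1 (α x) - c0 (x + h + k)) * two0
  have key : ∀ h k : Qs U, h ≠ 0 → k ≠ 0 → h ≠ k →
      c1 (α 0 + (0, h) + (0, k)) + c1 (α 0 + (0, h)) + c1 (α 0 + (0, k)) + c1 (α 0) = 1 := by
    intro h k hh hk hhk
    obtain ⟨h', hh'⟩ := hsur h
    obtain ⟨k', hk'⟩ := hsur k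
    have h1 := hdd 0 (0, h') (0, k')
    rw [hh', hk'] at h1
    rw [h1]
    have n1 : h' ≠ 0 := by
      rintro rfl
      apply hh
      have : A (0, (0 : Qs U)) = 0 := hA0
      rw [this] at hh'
      exact (Prod.mk.inj hh').2.symm
    have n2 : k' ≠ 0 := by
      rintro rfl
      apply hk
      have : A (0, (0 : Qs U)) = 0 := hA0
      rw [this] at hk'
      exact (Prod.mk.inj hk').2.symm
    have n3 : h' + k' ≠ 0 := by
      intro h2
      have h3 := (add_eq_zero_iff_V h' k').1 h2
      apply hhk
      rw [← h3, hh'] at hk'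
      exact (Prod.mk.inj hk').2
    have e0 : ∀ y : Qs U, c0 (0, y) = if y = 0 then 1 else 0 := fun y => cf_zero y
    have z0 : (0 : U × Qs U) = (0, 0) := rfl
    rw [z0]
    simp only [Prod.mk_add_mk, zero_add, e0, if_neg n1, if_neg n2, if_neg n3, if_true]
  -- α 0 = 0
  have hu0 : (α 0).1 = 0 := by
    by_contra hne
    obtain ⟨η, hη0, _⟩ := exists_three h16 (0 : Qs U)
    obtain ⟨κ, hκ0, hκ⟩ := exists_three h16 η
    have h1 := key η κ hη0 hκ0 (Ne.symm hκ)
    rcases hα0 : α 0 with ⟨u, y⟩
    rw [hα0] at h1 hne
    simp only at hne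
    have e0 : ∀ y : Qs U, c1 (u, y) = (y : U → ZMod 2) u + (Pi.single b0 1 : U → ZMod 2) u :=
      fun y => cf_ne hne y
    simp only [Prod.mk_add_mk, add_zero, e0, Submodule.coe_add, Pi.add_apply] at h1
    have h2 : (0 : ZMod 2) = 1 := by
      linear_combination h1 - (2 * (y : U → ZMod 2) u + (η : U → ZMod 2) u + (κ : U → ZMod 2) u +
        2 * (Pi.single b0 1 : U → ZMod 2) u) * two0
    exact absurd h2 (by decide)
  have hα0 : α 0 = 0 := by
    rcases hα0 : α 0 with ⟨u, y⟩
    rw [hα0] at hu0
    simp only at hu0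
    subst hu0
    by_contra hne
    have hy : y ≠ 0 := by rintro rfl; exact hne rfl
    obtain ⟨z, hz⟩ : ∃ z, (y : U → ZMod 2) z ≠ 0 := by
      by_contra hcon
      push Not at hcon
      exact hy (Subtype.ext (funext hcon))
    obtain ⟨a, ha⟩ := avoid ([0, z] : List U) (by simp; omega)
    obtain ⟨b, hb⟩ := avoid ([0, a, z, z + a] : List U) (by simp; omega)
    obtain ⟨d, hd⟩ := avoid ([0, a, b, a + b, z, z + a] : List U) (by simp; omega)
    simp only [List.mem_cons, List.not_mem_nil, or_false, not_or] at ha hb hd
    have hab : a ≠ b := Ne.symm hb.2.1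
    have had : a ≠ d := Ne.symm hd.2.1
    set η : Qs U := ⟨lw a b, lw_mem ha.1 hb.1 hab⟩ with hη
    set κ : Qs U := ⟨lw a d, lw_mem ha.1 hd.1 had⟩ with hκ
    have vη : (η : U → ZMod 2) z = 0 := by
      apply lw_off (Ne.symm ha.2) (Ne.symm hb.2.2.1)
      intro h
      apply hb.2.2.2
      rw [h]
      calc b = b + (a + a) := by rw [add_self_V, add_zero]
        _ = a + b + a := by abel
    have vκ : (κ : U → ZMod 2) z = 0 := by
      apply lw_off (Ne.symm ha.2) (Ne.symm hd.2.2.2.2.1)
      intro h
      apply hd.2.2.2.2.2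
      rw [h]
      calc d = d + (a + a) := by rw [add_self_V, add_zero]
        _ = a + d + a := by abel
    have hη0 : η ≠ 0 := by
      intro h
      have h1 := congrFun (congrArg Subtype.val h) a
      have h2 : lw a b a = 0 := h1
      rw [lw_self hb.1 hab] at h2
      exact absurd h2 (by decide)
    have hκ0 : κ ≠ 0 := by
      intro h
      have h1 := congrFun (congrArg Subtype.val h) a
      have h2 : lw a d a = 0 := h1
      rw [lw_self hd.1 had] at h2
      exact absurd h2 (by decide)
    have hηκ : η ≠ κ := by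
      intro h
      have h1 := congrFun (congrArg Subtype.val h) d
      have h2 : lw a b d = lw a d d := h1
      rw [lw_off hd.2.1 hd.2.2.1 hd.2.2.2.1] at h2
      have h3 : lw a d d = 1 := by
        rw [lw_apply, if_neg hd.2.1, if_pos rfl, if_neg]
        · rfl
        · intro h4
          apply ha.1
          have : d + 0 = d + a := by rw [add_zero, add_comm]; exact h4
          exact (add_left_cancel this).symm
      rw [h3] at h2
      exact absurd h2 (by decide)
    have h1 := key η κ hη0 hκ0 hηκ
    rw [hα0] at h1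
    have e0 : ∀ y : Qs U, c1 (0, y) = if y = 0 then 1 else 0 := fun y => cf_zero y
    have nz : ∀ w : Qs U, (w : U → ZMod 2) z ≠ 0 → w ≠ 0 := by
      rintro w hw rfl; exact hw rfl
    have n1 : y + η + κ ≠ 0 := nz _ (by
      simp only [Submodule.coe_add, Pi.add_apply, vη, vκ, add_zero]; exact hz)
    have n2 : y + η ≠ 0 := nz _ (by
      simp only [Submodule.coe_add, Pi.add_apply, vη, add_zero]; exact hz)
    have n3 : y + κ ≠ 0 := nz _ (by
      simp only [Submodule.coe_add, Pi.add_apply, vκ, add_zero]; exact hz)
    simp only [Prod.mk_add_mk, add_zero, e0, if_neg n1, if_neg n2, if_neg n3, if_neg hy] at h1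
    exact absurd h1 (by decide)
  -- final contradiction
  have hαadd : ∀ v w, α (v + w) = α v + α w := by
    intro v w; rw [hadd, hα0, add_zero]
  set β : U →+ U := { toFun := fun u => (α (u, 0)).1
                      map_zero' := by
                        show (α (0, 0)).1 = 0
                        exact hu0
                      map_add' := by
                        intro u u'
                        have : ((u + u', 0) : U × Qs U) = (u, 0) + (u', 0) := by simp
                        show (α (u + u', 0)).1 = _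
                        rw [this, hαadd, Prod.fst_add] } with hβ
  set γ : U →+ Qs U := { toFun := fun u => (α (u, 0)).2
                         map_zero' := by
                           show (α (0, 0)).2 = 0
                           have : α (0, 0) = 0 := hα0
                           rw [this]; rfl
                         map_add' := by
                           intro u u'
                           have : ((u + u', 0) : U × Qs U) = (u, 0) + (u', 0) := by simp
                           show (α (u + u', 0)).2 = _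
                           rw [this, hαadd, Prod.snd_add] } with hγ
  have hAα : ∀ v, A v = α v := fun v => by simp only [hA, hα0, add_zero]
  have hβinj : Function.Injective β := by
    rw [injective_iff_map_eq_zero]
    intro u hu
    have hu' : (α (u, 0)).1 = 0 := hu
    obtain ⟨q, hq⟩ := hsur (α (u, 0)).2
    rw [hAα] at hq
    have h1 : α (0, q) = α (u, 0) := by
      rw [hq]; exact Prod.ext hu'.symm rfl
    have h2 := hbij.1 h1
    exact (Prod.mk.inj h2).1.symm
  have hβbij : Function.Bijective β := Finite.injective_iff_bijective.1 hβinj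
  set βl : U ≃ₗ[ZMod 2] U := LinearEquiv.ofBijective (β.toZModLinearMap 2) hβbij with hβl
  set γl : U →ₗ[ZMod 2] Qs U := γ.toZModLinearMap 2 with hγl
  have hval : ∀ u : U, c1 (α (u, 0)) + c0 (u, 0) =
      (γ u : U → ZMod 2) (β u) + (Pi.single b0 1 : U → ZMod 2) (β u) := by
    intro u
    by_cases hu : u = 0
    · subst hu
      rw [map_zero β, map_zero γ]
      have h1 : α ((0 : U), (0 : Qs U)) = (0, 0) := hα0
      have h2 : c1 (0, 0) = 1 := by
        show cf _ (0, 0) = 1
        rw [cf_zero, if_pos rfl]
      have h3 : c0 (0, 0) = 1 := by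
        show cf _ (0, 0) = 1
        rw [cf_zero, if_pos rfl]
      rw [h1, h2, h3, Pi.single_apply, if_neg hb0.symm]
      simp only [Submodule.coe_zero, Pi.zero_apply]
      exact (by decide : (1 : ZMod 2) + 1 = 0 + 0)
    · have hβu : β u ≠ 0 := fun h => hu (hβinj (by rw [h, map_zero]))
      have h1 : α (u, 0) = (β u, γ u) := rfl
      have h2 : c1 (β u, γ u) = (γ u : U → ZMod 2) (β u) + (Pi.single b0 1 : U → ZMod 2) (β u) :=
        cf_ne hβu _
      have h3 : c0 (u, 0) = 0 := by
        show cf _ (u, 0) = 0
        rw [cf_ne hu]; simp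
      rw [h1, h2, h3, add_zero]
  have hsum1 : ∑ u : U, (γ u : U → ZMod 2) (β u) = 0 := by
    have h1 := trace_zero (γl.comp βl.symm.toLinearMap)
    rw [← h1]
    conv_rhs => rw [← Equiv.sum_comp βl.toEquiv]
    refine Finset.sum_congr rfl fun u _ => ?_
    have h2 : (γl.comp βl.symm.toLinearMap) (βl.toEquiv u) = γ u := by
      show γl (βl.symm (βl u)) = γ u
      rw [LinearEquiv.symm_apply_apply]; rfl
    rw [h2]; rfl
  have hsum2 : ∑ u : U, (Pi.single b0 1 : U → ZMod 2) (β u) = 1 := by
    have h1 : ∑ u : U, (Pi.single b0 1 : U → ZMod 2) (β u) =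
        ∑ u : U, (Pi.single b0 1 : U → ZMod 2) u :=
      Equiv.sum_comp (Equiv.ofBijective β hβbij) (fun u => (Pi.single b0 1 : U → ZMod 2) u)
    rw [h1]
    simp [Pi.single_apply]
  have hG0 : c1 (α 0) + c0 0 = 0 := by
    have := hval 0
    rw [map_zero β, map_zero γ, Pi.single_apply, if_neg hb0.symm] at this
    have h1 : ((0 : Qs U) : U → ZMod 2) 0 + 0 = 0 := by simp
    rw [h1] at this
    exact this
  set G : U →+ ZMod 2 := { toFun := fun u => c1 (α (u, 0)) + c0 (u, 0)
                           map_zero' := hG0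
                           map_add' := by
                             intro u u'
                             have h1 := hg (u, 0) (u', 0) 0
                             rw [add_zero, hG0, add_zero] at h1
                             have : ((u + u', 0) : U × Qs U) = (u, 0) + (u', 0) := by simp
                             show c1 (α (u + u', 0)) + c0 (u + u', 0) = _
                             rw [this]; exact h1 } with hG
  have h1 := sum_hom_zero h16 G
  have h2 : ∑ u, G u = ∑ u : U, ((γ u : U → ZMod 2) (β u) +
      (Pi.single b0 1 : U → ZMod 2) (β u)) := Finset.sum_congr rfl fun u _ => hval u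
  rw [h2, Finset.sum_add_distrib, hsum1, hsum2, zero_add] at h1
  exact absurd h1 (by decide)

/-- the two graphs are not isomorphic -/
theorem not_iso (h16 : 16 ≤ Fintype.card U) {b0 : U} (hb0 : b0 ≠ 0) :
    IsEmpty (gr (cf (U := U) 0) ≃g gr (cf (U := U) (Pi.single b0 1))) := by
  constructor
  intro Φ
  obtain ⟨α, hbij, hadd, hg⟩ := iso_affine (na_cf h16 0) (na_cf h16 _) Φ
  exact noneq h16 hb0 α hbij hadd hg

end Pool.Agent.WLSRG
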