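import Pool.Agent.WLSRG.Graph

/-! The graphs `gr c` are strongly regular. -/

set_option autoImplicit false
set_option linter.unusedSectionVars false

open Finset

namespace Pool.Agent.WLSRG

variable {V : Type*} [AddCommGroup V] [Module (ZMod 2) V] [Fintype V] [DecidableEq V]

theorem card_zero (c : V → ZMod 2) (p : Vx V) :
    2 * ((univ.filter (fun r : Vx V => ex c p r = 0)).card : ℤ) =
      (Fintype.card V : ℤ) ^ 2 + Fintype.card V := by
  have h1 : ((univ.filter (fun r : Vx V => ex c p r = 0)).card : ℤ) =
      ∑ r : Vx V, (if ex c p r = 0 then 1 else 0 : ℤ) := by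
    rw [Finset.card_filter]; push_cast; rfl
  rw [h1, Finset.mul_sum]
  have h2 : ∀ r : Vx V, (2 * (if ex c p r = 0 then 1 else 0) : ℤ) = 1 + Hm c p r :=
    fun r => ind_eq _
  simp only [h2, Finset.sum_add_distrib, row_sum]
  simp only [Finset.sum_const, Finset.card_univ, Fintype.card_prod, card_dual]
  simp; ring

theorem card_zero2 (c : V → ZMod 2) (p q : Vx V) (hpq : p ≠ q) :
    4 * ((univ.filter (fun r : Vx V => ex c p r = 0 ∧ ex c q r = 0)).card : ℤ) =
      (Fintype.card V : ℤ) ^ 2 + 2 * Fintype.card V := by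
  have h1 : ((univ.filter (fun r : Vx V => ex c p r = 0 ∧ ex c q r = 0)).card : ℤ) =
      ∑ r : Vx V, (if ex c p r = 0 then 1 else 0 : ℤ) * (if ex c q r = 0 then 1 else 0 : ℤ) := by
    rw [Finset.card_filter]; push_cast
    refine Finset.sum_congr rfl fun r _ => ?_
    by_cases h : ex c p r = 0 <;> by_cases h' : ex c q r = 0 <;> simp [h, h']
  rw [h1, Finset.mul_sum]
  have h2 : ∀ r : Vx V, (4 * ((if ex c p r = 0 then 1 else 0 : ℤ) * (if ex c q r = 0 then 1 else 0 : ℤ)) : ℤ)
      = 1 + Hm c p r + Hm c q r + Hm c p r * Hm c q r := by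
    intro r
    have e1 := ind_eq (ex c p r)
    have e2 := ind_eq (ex c q r)
    have : (4 * ((if ex c p r = 0 then 1 else 0 : ℤ) * (if ex c q r = 0 then 1 else 0 : ℤ)) : ℤ)
      = (2 * (if ex c p r = 0 then 1 else 0 : ℤ)) * (2 * (if ex c q r = 0 then 1 else 0 : ℤ)) := by ring
    rw [this, e1, e2]; unfold Hm; ring
  simp only [h2, Finset.sum_add_distrib, row_sum, orth, if_neg hpq]
  simp only [Finset.sum_const, Finset.card_univ, Fintype.card_prod, card_dual]
  simp; ring

theorem srg (c : V → ZMod 2) (K : ℕ) (hK : Fintype.card V = 2 * K) (hK2 : 2 ≤ K) :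
    (gr c).IsSRGWith (4 * K ^ 2) (2 * K ^ 2 + K - 1) (K ^ 2 + K - 2) (K ^ 2 + K) := by
  have hK' : (Fintype.card V : ℤ) = 2 * K := by exact_mod_cast hK
  refine ⟨?_, ?_, ?_, ?_⟩
  · rw [Fintype.card_prod, card_dual, hK]; ring
  · intro p
    have h0 := card_zero c p
    have h1 : (univ.filter (fun r : Vx V => ex c p r = 0)) = insert p ((gr c).neighborFinset p) := by
      ext r
      simp only [Finset.mem_filter, Finset.mem_univ, true_and, Finset.mem_insert,
        SimpleGraph.mem_neighborFinset]
      constructor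
      · intro h
        by_cases hr : r = p
        · exact Or.inl hr
        · exact Or.inr ⟨fun h' => hr h'.symm, h⟩
      · rintro (rfl | h)
        · exact ex_self c _
        · exact h.2
    have h2 : p ∉ (gr c).neighborFinset p := by simp
    rw [h1, Finset.card_insert_of_notMem h2, SimpleGraph.card_neighborFinset_eq_degree, hK'] at h0
    push_cast at h0
    have h3 : ((gr c).degree p : ℤ) = 2 * K ^ 2 + K - 1 := by linarith
    have h4 : (gr c).degree p + 1 = 2 * K ^ 2 + K := by
      zify; linarith
    omega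
  · intro p q hpq
    have hne : p ≠ q := hpq.1
    have h0 := card_zero2 c p q hne
    rw [← Set.toFinset_card]
    have h1 : (univ.filter (fun r : Vx V => ex c p r = 0 ∧ ex c q r = 0)) =
        insert p (insert q ((gr c).commonNeighbors p q).toFinset) := by
      ext r
      simp only [Finset.mem_filter, Finset.mem_univ, true_and, Finset.mem_insert,
        Set.mem_toFinset, SimpleGraph.mem_commonNeighbors]
      constructor
      · rintro ⟨h, h'⟩
        by_cases hr : r = p
        · exact Or.inl hr
        · by_cases hr' : r = q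
          · exact Or.inr (Or.inl hr')
          · exact Or.inr (Or.inr ⟨⟨fun h' => hr h'.symm, h⟩, ⟨fun h' => hr' h'.symm, h'⟩⟩)
      · rintro (rfl | rfl | h)
        · exact ⟨ex_self c _, by rw [ex_symm]; exact hpq.2⟩
        · exact ⟨hpq.2, ex_self c _⟩
        · exact ⟨h.1.2, h.2.2⟩
    have h2 : q ∉ ((gr c).commonNeighbors p q).toFinset := by
      simp [SimpleGraph.mem_commonNeighbors]
    have h3 : p ∉ insert q ((gr c).commonNeighbors p q).toFinset := by
      simp [SimpleGraph.mem_commonNeighbors, hne]
    rw [h1, Finset.card_insert_of_notMem h3, Finset.card_insert_of_notMem h2, hK'] at h0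
    push_cast at h0
    have h4 : (((gr c).commonNeighbors p q).toFinset.card) + 2 = K ^ 2 + K := by
      zify; linarith
    omega
  · intro p q hne hpq
    have h0 := card_zero2 c p q hne
    rw [← Set.toFinset_card]
    have h5 : ex c p q ≠ 0 := fun h => hpq ⟨hne, h⟩
    have h1 : (univ.filter (fun r : Vx V => ex c p r = 0 ∧ ex c q r = 0)) =
        ((gr c).commonNeighbors p q).toFinset := by
      ext r
      simp only [Finset.mem_filter, Finset.mem_univ, true_and,
        Set.mem_toFinset, SimpleGraph.mem_commonNeighbors]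
      constructor
      · rintro ⟨h, h'⟩
        refine ⟨⟨?_, h⟩, ⟨?_, h'⟩⟩
        · rintro rfl; exact h5 (by rw [ex_symm]; exact h')
        · rintro rfl; exact h5 h
      · rintro h
        exact ⟨h.1.2, h.2.2⟩
    rw [h1, hK'] at h0
    zify; linarith

end Pool.Agent.WLSRG
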