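import Pool.Agent.WLSRG.NonEq

/-!
The robber's haven: for every small set of pebble types there is a majority class of base points
between which the twist can be moved by shears fixing all pebbles.
-/

set_option autoImplicit false
set_option linter.unusedSectionVars false

open Finset

namespace Pool.Agent.WLSRG

variable {U : Type*} [AddCommGroup U] [Module (ZMod 2) U] [DecidableEq U]

variable (U) in
/-- pebble types -/
abbrev Ty := U × Du (Qs U)

/-- shears fixing all pebbles with types in `T` -/
def Wt (T : Finset (Ty U)) : Submodule (ZMod 2) (U →ₗ[ZMod 2] Qs U) where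
  carrier := {f | ∀ τ ∈ T, f τ.1 = 0 ∧ ∀ u, τ.2 (f u) = 0}
  zero_mem' := by intro τ _; simp
  add_mem' := by
    intro f g hf hg τ hτ
    refine ⟨?_, fun u => ?_⟩
    · rw [LinearMap.add_apply, (hf τ hτ).1, (hg τ hτ).1, add_zero]
    · rw [LinearMap.add_apply, map_add, (hf τ hτ).2, (hg τ hτ).2, add_zero]
  smul_mem' := by
    intro a f hf τ hτ
    refine ⟨?_, fun u => ?_⟩
    · rw [LinearMap.smul_apply, (hf τ hτ).1, smul_zero]
    · rw [LinearMap.smul_apply, map_smul, (hf τ hτ).2, smul_zero]

/-- change of the twist under a shear -/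
def dl : (U →ₗ[ZMod 2] Qs U) →ₗ[ZMod 2] (U → ZMod 2) where
  toFun f u := (f u : U → ZMod 2) u
  map_add' f g := by ext u; simp
  map_smul' a f := by ext u; simp

theorem dl_apply (f : U →ₗ[ZMod 2] Qs U) (u : U) : dl f u = (f u : U → ZMod 2) u := rfl

variable [Fintype U]

/-- annihilator of the twists reachable by `Wt T` -/
def Xt (T : Finset (Ty U)) : Submodule (ZMod 2) (U → ZMod 2) where
  carrier := {x | ∀ f ∈ Wt T, ∑ u, x u * dl f u = 0}
  zero_mem' := by intro f _; simp
  add_mem' := by
    intro x y hx hy f hf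
    simp only [Pi.add_apply, add_mul, Finset.sum_add_distrib, hx f hf, hy f hf, add_zero]
  smul_mem' := by
    intro a x hx f hf
    simp only [Pi.smul_apply, smul_eq_mul, mul_assoc, ← Finset.mul_sum, hx f hf, mul_zero]

/-- the twist can be moved from `b` to `b'` -/
def eqv (T : Finset (Ty U)) (b b' : U) : Prop :=
  ∃ f ∈ Wt T, dl f = Pi.single b 1 + Pi.single b' 1

theorem eqv_of (T : Finset (Ty U)) (b b' : U) (h : ∀ x ∈ Xt T, x b = x b') : eqv T b b' := by
  by_contra hcon
  have h1 : (Pi.single b 1 + Pi.single b' 1 : U → ZMod 2) ∉ (Wt T).map dl := by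
    rintro ⟨f, hf, h2⟩
    exact hcon ⟨f, hf, h2⟩
  obtain ⟨φ, hφ, hφ0⟩ := Submodule.exists_dual_map_eq_bot_of_notMem h1 inferInstance
  apply hφ
  have h3 : ∀ z : U → ZMod 2, φ z = ∑ u, φ (Pi.single u 1) * z u := by
    intro z
    have h4 : z = ∑ u, z u • (Pi.single u 1 : U → ZMod 2) := by
      ext w
      simp [Finset.sum_apply, Pi.single_apply]
    conv_lhs => rw [h4]
    rw [map_sum]
    refine Finset.sum_congr rfl fun u _ => ?_
    rw [map_smul, smul_eq_mul, mul_comm]
  have h5 : (fun u => φ (Pi.single u 1)) ∈ Xt T := by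
    intro f hf
    rw [← h3]
    have h6 : φ (dl f) ∈ ((Wt T).map dl).map φ :=
      Submodule.mem_map_of_mem (Submodule.mem_map_of_mem hf)
    rw [hφ0] at h6
    exact (Submodule.mem_bot _).1 h6
  have h6 := h _ h5
  have h7 : φ (Pi.single b 1) = φ (Pi.single b' 1) := h6
  rw [map_add, h7, add_self2]

/-- contraction of `x` -/
noncomputable def rho (x : U → ZMod 2) : Du U →ₗ[ZMod 2] Du (Qs U) where
  toFun l := { toFun := fun q => ∑ u, x u * l u * (q : U → ZMod 2) u
               map_add' := by
                 intro p q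
                 simp only [Submodule.coe_add, Pi.add_apply, mul_add, Finset.sum_add_distrib]
               map_smul' := by
                 intro a q
                 simp only [Submodule.coe_smul, Pi.smul_apply, smul_eq_mul, Finset.mul_sum,
                   RingHom.id_apply]
                 refine Finset.sum_congr rfl fun u _ => ?_
                 ring }
  map_add' := by
    intro l l'
    ext q
    simp only [LinearMap.coe_mk, AddHom.coe_mk, LinearMap.add_apply, mul_add, add_mul,
      Finset.sum_add_distrib]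
  map_smul' := by
    intro a l
    ext q
    simp only [LinearMap.coe_mk, AddHom.coe_mk, LinearMap.smul_apply, smul_eq_mul, Finset.mul_sum,
      RingHom.id_apply]
    refine Finset.sum_congr rfl fun u _ => ?_
    ring

theorem rho_apply (x : U → ZMod 2) (l : Du U) (q : Qs U) :
    rho x l q = ∑ u, x u * l u * (q : U → ZMod 2) u := rfl

theorem almost_const (T : Finset (Ty U)) (x : U → ZMod 2) (hx : x ∈ Xt T) :
    ∃ S : Finset U, S.card ≤ 4 ^ T.card ∧ ∀ a b, a ∉ S → b ∉ S → x a = x b := by
  classical
  -- functionals vanishing on the pebbled vectors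
  set Θ : Du U →ₗ[ZMod 2] (T → ZMod 2) :=
    LinearMap.pi (fun τ : T => (LinearMap.applyₗ τ.1.1 : Du U →ₗ[ZMod 2] ZMod 2)) with hΘ
  set L1 := LinearMap.ker Θ with hL1
  have hfr : Module.finrank (ZMod 2) (Du U) = Module.finrank (ZMod 2) U := Subspace.dual_finrank_eq
  have h1 := LinearMap.finrank_range_add_finrank_ker Θ
  have h2 : Module.finrank (ZMod 2) (LinearMap.range Θ) ≤ T.card := by
    refine (Submodule.finrank_le _).trans ?_
    rw [Module.finrank_fintype_fun_eq_card]
    simp
  set ρ := (rho x).domRestrict L1 with hρ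
  have h3 := LinearMap.finrank_range_add_finrank_ker (K := ZMod 2) (V := L1) (V₂ := Du (Qs U)) ρ
  have hrange : LinearMap.range ρ ≤ Submodule.span (ZMod 2) (Set.range (fun τ : T => τ.1.2)) := by
    rintro _ ⟨⟨l, hl⟩, rfl⟩
    apply mem_span_of_iInf_ker_le_ker
    intro q hq
    rw [Submodule.mem_iInf] at hq
    rw [LinearMap.mem_ker]
    show rho x l q = 0
    have hf : (l.smulRight q : U →ₗ[ZMod 2] Qs U) ∈ Wt T := by
      intro τ hτ
      refine ⟨?_, fun u => ?_⟩
      · have h4 : Θ l = 0 := hl
        have h5 : l τ.1 = 0 := congrFun h4 ⟨τ, hτ⟩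
        rw [LinearMap.smulRight_apply, h5, zero_smul]
      · have h4 := hq ⟨τ, hτ⟩
        rw [LinearMap.mem_ker] at h4
        rw [LinearMap.smulRight_apply, map_smul, h4, smul_zero]
    have h4 := hx _ hf
    rw [rho_apply, ← h4]
    refine Finset.sum_congr rfl fun u _ => ?_
    rw [dl_apply, LinearMap.smulRight_apply, Submodule.coe_smul, Pi.smul_apply, smul_eq_mul]
    ring
  have h4 : Module.finrank (ZMod 2) (LinearMap.range ρ) ≤ T.card := by
    refine (Submodule.finrank_mono hrange).trans ?_
    refine (finrank_range_le_card _).trans ?_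
    simp
  set Λ : Submodule (ZMod 2) (Du U) := (LinearMap.ker ρ).map L1.subtype with hΛ
  have h5 : Module.finrank (ZMod 2) Λ = Module.finrank (ZMod 2) (LinearMap.ker ρ) :=
    Submodule.finrank_map_subtype_eq _ _
  have h6 := Subspace.finrank_add_finrank_dualCoannihilator_eq Λ
  have h6' : Module.finrank (ZMod 2) (LinearMap.ker ρ) +
      Module.finrank (ZMod 2) Λ.dualCoannihilator = Module.finrank (ZMod 2) U := by
    rw [← h5]; exact h6
  rw [← hL1] at h1
  have h7 : Module.finrank (ZMod 2) Λ.dualCoannihilator ≤ 2 * T.card := by omega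
  have h8 : ∀ l ∈ Λ, ∀ q : Qs U, ∑ u, x u * l u * (q : U → ZMod 2) u = 0 := by
    rintro _ ⟨⟨l, hl⟩, hk, rfl⟩ q
    have h9 : rho x l = 0 := hk
    have h10 := congrArg (fun g => g q) h9
    exact h10
  -- constancy on the support of a functional in Λ
  have h9 : ∀ l ∈ Λ, ∀ a b, l a = 1 → l b = 1 → x a = x b := by
    intro l hl a b ha hb
    by_cases hab : a = b
    · rw [hab]
    have ha0 : a ≠ 0 := by rintro rfl; rw [map_zero] at ha; exact absurd ha (by decide)
    have hb0 : b ≠ 0 := by rintro rfl; rw [map_zero] at hb; exact absurd hb (by decide)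
    have h10 := h8 l hl ⟨lw a b, lw_mem ha0 hb0 hab⟩
    simp only [lw_apply, mul_add, mul_ite, mul_one, mul_zero, Finset.sum_add_distrib,
      Finset.sum_ite_eq', Finset.mem_univ, if_true, map_add, ha, hb] at h10
    linear_combination h10 - (x b + x (a + b)) * two0
  refine ⟨(univ : Finset U).filter (fun u => u ∈ Λ.dualCoannihilator), ?_, ?_⟩
  · have h10 : ((univ : Finset U).filter (fun u => u ∈ Λ.dualCoannihilator)).card =
        Fintype.card Λ.dualCoannihilator := by
      rw [Fintype.card_subtype]
    rw [h10, Module.card_eq_pow_finrank (K := ZMod 2), ZMod.card]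
    calc 2 ^ Module.finrank (ZMod 2) Λ.dualCoannihilator ≤ 2 ^ (2 * T.card) :=
          Nat.pow_le_pow_right (by norm_num) h7
      _ = 4 ^ T.card := by rw [pow_mul]; norm_num
  · intro a b ha hb
    have h01 : ∀ z : ZMod 2, z ≠ 0 → z = 1 := by decide
    have h10 : ∀ a, a ∉ (univ : Finset U).filter (fun u => u ∈ Λ.dualCoannihilator) →
        ∃ l ∈ Λ, l a = 1 := by
      intro a ha
      by_contra hcon
      push Not at hcon
      apply ha
      rw [Finset.mem_filter]
      refine ⟨Finset.mem_univ _, ?_⟩
      rw [Submodule.mem_dualCoannihilator]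
      intro l hl
      by_contra h11
      exact hcon l hl (h01 _ h11)
    obtain ⟨l, hl, hla⟩ := h10 a ha
    obtain ⟨l', hl', hlb⟩ := h10 b hb
    by_cases h11 : l b = 0
    · by_cases h12 : l' a = 0
      · refine h9 (l + l') (Λ.add_mem hl hl') a b ?_ ?_
        · rw [LinearMap.add_apply, hla, h12, add_zero]
        · rw [LinearMap.add_apply, hlb, h11, zero_add]
      · exact h9 l' hl' a b (h01 _ h12) hlb
    · exact h9 l hl a b hla (h01 _ h11)

end Pool.Agent.WLSRG
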