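import Pool.Agent.WLSRG.Free

/-!
Existence of a majority class.
-/

set_option autoImplicit false
set_option linter.unusedSectionVars false

open Finset Classical

namespace Pool.Agent.WLSRG

variable {U : Type*} [AddCommGroup U] [Module (ZMod 2) U] [DecidableEq U] [Fintype U]

/-- `b` lies in a majority class -/
def free (T : Finset (Ty U)) (b : U) : Prop :=
  b ≠ 0 ∧ Fintype.card U < 2 * ((univ : Finset U).filter (fun b' => eqv T b b')).card

theorem eqv_symm {T : Finset (Ty U)} {b b' : U} (h : eqv T b b') : eqv T b' b := by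
  obtain ⟨f, hf, h1⟩ := h
  exact ⟨f, hf, by rw [h1, add_comm]⟩

theorem eqv_trans {T : Finset (Ty U)} {b b' b'' : U} (h : eqv T b b') (h' : eqv T b' b'') :
    eqv T b b'' := by
  obtain ⟨f, hf, h1⟩ := h
  obtain ⟨g, hg, h2⟩ := h'
  refine ⟨f + g, (Wt T).add_mem hf hg, ?_⟩
  rw [map_add, h1, h2]
  calc (Pi.single b 1 + Pi.single b' 1 : U → ZMod 2) + (Pi.single b' 1 + Pi.single b'' 1) =
      Pi.single b 1 + Pi.single b'' 1 + (Pi.single b' 1 + Pi.single b' 1) := by abel
    _ = _ := by rw [add_self_V, add_zero]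

theorem eqv_of_free {T : Finset (Ty U)} {b b' : U} (h : free T b) (h' : free T b') :
    eqv T b b' := by
  set F := (univ : Finset U).filter (fun c => eqv T b c)
  set F' := (univ : Finset U).filter (fun c => eqv T b' c)
  have h1 : (F ∩ F').Nonempty := by
    by_contra hne
    rw [Finset.not_nonempty_iff_eq_empty] at hne
    have h2 := Finset.card_union_add_card_inter F F'
    rw [hne, Finset.card_empty] at h2
    have h3 : (F ∪ F').card ≤ Fintype.card U := Finset.card_le_univ _
    have h4 : Fintype.card U < 2 * F.card := h.2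
    have h5 : Fintype.card U < 2 * F'.card := h'.2
    omega
  obtain ⟨c, hc⟩ := h1
  rw [Finset.mem_inter, Finset.mem_filter, Finset.mem_filter] at hc
  exact eqv_trans hc.1.2 (eqv_symm hc.2.2)

theorem Wt_mono {T T' : Finset (Ty U)} (h : T ⊆ T') : Wt T' ≤ Wt T :=
  fun _ hf τ hτ => hf τ (h hτ)

theorem free_mono {T T' : Finset (Ty U)} (h : T ⊆ T') {b : U} (hb : free T' b) : free T b := by
  refine ⟨hb.1, lt_of_lt_of_le hb.2 ?_⟩
  apply Nat.mul_le_mul_left
  apply Finset.card_le_card
  intro c hc
  rw [Finset.mem_filter] at hc ⊢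
  obtain ⟨_, f, hf, h1⟩ := hc
  exact ⟨Finset.mem_univ _, f, Wt_mono h hf, h1⟩

theorem free_ne (h2 : 2 ≤ Fintype.card U) {T : Finset (Ty U)} {b : U} (hb : free T b)
    {τ : Ty U} (hτ : τ ∈ T) : τ.1 ≠ b := by
  intro h
  have h1 : (univ : Finset U).filter (fun b' => eqv T b b') ⊆ {b} := by
    intro c hc
    rw [Finset.mem_filter] at hc
    obtain ⟨_, f, hf, h3⟩ := hc
    rw [Finset.mem_singleton]
    by_contra hcb
    have h4 := congrFun h3 b
    rw [dl_apply, ← h, (hf τ hτ).1, h] at h4
    simp only [Pi.add_apply, Pi.single_apply, if_true, if_neg (Ne.symm hcb), Submodule.coe_zero,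
      Pi.zero_apply, add_zero] at h4
    exact zero_ne_one h4
  have h3 := Finset.card_le_card h1
  rw [Finset.card_singleton] at h3
  have h4 := hb.2
  omega

theorem exists_free (T : Finset (Ty U)) (m : ℕ) (hT : T.card ≤ m)
    (hU : 4 ^ (m + 2) ≤ Fintype.card U) : ∃ b, free T b := by
  by_contra hcon
  push Not at hcon
  set N : ℤ := (Fintype.card U : ℤ) with hN
  have : Fintype (Xt T) := Fintype.ofFinite _
  set X : ℤ := (Fintype.card (Xt T) : ℤ) with hX
  have hXpos : 0 < X := by
    have : 0 < Fintype.card (Xt T) := Fintype.card_pos_iff.2 ⟨0⟩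
    rw [hX]; exact_mod_cast this
  set E : Finset (U × U) := univ.filter (fun p => ∀ x : Xt T, (x : U → ZMod 2) p.1 = (x : U → ZMod 2) p.2)
    with hE
  have h1 : ∀ p : U × U, ∑ x : Xt T, sg ((x : U → ZMod 2) p.1 + (x : U → ZMod 2) p.2) =
      if p ∈ E then X else 0 := by
    intro p
    split_ifs with hp
    · rw [hE, Finset.mem_filter] at hp
      have : ∀ x : Xt T, sg ((x : U → ZMod 2) p.1 + (x : U → ZMod 2) p.2) = 1 := by
        intro x; rw [hp.2 x, add_self2]; rfl
      simp only [this, Finset.sum_const, Finset.card_univ]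
      simp [hX]
    · set φ : Xt T →+ ZMod 2 :=
        { toFun := fun x => (x : U → ZMod 2) p.1 + (x : U → ZMod 2) p.2
          map_zero' := by simp
          map_add' := by
            intro x y
            simp only [Submodule.coe_add, Pi.add_apply]; ring }
      have := sum_sg_zero φ ?_
      · exact this
      · by_contra hc
        push Not at hc
        apply hp
        rw [hE, Finset.mem_filter]
        refine ⟨Finset.mem_univ _, fun x => ?_⟩
        have h2 : (x : U → ZMod 2) p.1 + (x : U → ZMod 2) p.2 = 0 := hc x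
        linear_combination h2 - (x : U → ZMod 2) p.2 * two0
  have h2 : ∀ x : Xt T, N ^ 2 - 4 * 4 ^ m * N ≤
      ∑ p : U × U, sg ((x : U → ZMod 2) p.1 + (x : U → ZMod 2) p.2) := by
    intro x
    obtain ⟨S, hS, hconst⟩ := almost_const T x x.2
    have h3 : ∀ p : U × U, (1 : ℤ) - 2 * ((if p.1 ∈ S then 1 else 0) + (if p.2 ∈ S then 1 else 0)) ≤
        sg ((x : U → ZMod 2) p.1 + (x : U → ZMod 2) p.2) := by
      intro p
      by_cases h4 : p.1 ∈ S
      · rw [if_pos h4]
        have := neg_le_sg ((x : U → ZMod 2) p.1 + (x : U → ZMod 2) p.2)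
        split_ifs <;> linarith
      · by_cases h5 : p.2 ∈ S
        · rw [if_pos h5, if_neg h4]
          have := neg_le_sg ((x : U → ZMod 2) p.1 + (x : U → ZMod 2) p.2)
          linarith
        · rw [if_neg h4, if_neg h5, hconst _ _ h4 h5, add_self2]
          norm_num [sg]
    refine le_trans ?_ (Finset.sum_le_sum fun p _ => h3 p)
    have h4 : ∑ p : U × U, ((1 : ℤ) - 2 * ((if p.1 ∈ S then 1 else 0) + (if p.2 ∈ S then 1 else 0))) =
        N ^ 2 - 4 * (S.card : ℤ) * N := by
      have a1 : ∑ x : U, ∑ y : U, (if x ∈ S then (1 : ℤ) else 0) = N * S.card := by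
        simp only [Finset.sum_const, Finset.card_univ, nsmul_eq_mul, ← Finset.mul_sum,
          Finset.sum_boole, Finset.filter_mem_eq_inter, Finset.univ_inter, hN]
      have a2 : ∑ x : U, ∑ y : U, (if y ∈ S then (1 : ℤ) else 0) = N * S.card := by
        simp only [Finset.sum_const, Finset.card_univ, nsmul_eq_mul,
          Finset.sum_boole, Finset.filter_mem_eq_inter, Finset.univ_inter, hN]
      have a3 : ∑ x : U, ∑ y : U, (1 : ℤ) = N ^ 2 := by
        simp only [Finset.sum_const, Finset.card_univ, nsmul_eq_mul, hN]; ring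
      rw [Fintype.sum_prod_type]
      simp only [Finset.sum_sub_distrib, ← Finset.mul_sum, Finset.sum_add_distrib]
      rw [a1, a2, a3]; ring
    rw [h4]
    have h5 : (S.card : ℤ) ≤ 4 ^ m := by
      have : S.card ≤ 4 ^ m := hS.trans (Nat.pow_le_pow_right (by norm_num) hT)
      exact_mod_cast this
    have h6 : (0 : ℤ) ≤ N := by positivity
    nlinarith
  have h3 : X * (N ^ 2 - 4 * 4 ^ m * N) ≤ X * (E.card : ℤ) := by
    calc X * (N ^ 2 - 4 * 4 ^ m * N) = ∑ x : Xt T, (N ^ 2 - 4 * 4 ^ m * N) := by
          rw [Finset.sum_const, Finset.card_univ, nsmul_eq_mul]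
      _ ≤ ∑ x : Xt T, ∑ p : U × U, sg ((x : U → ZMod 2) p.1 + (x : U → ZMod 2) p.2) :=
          Finset.sum_le_sum fun x _ => h2 x
      _ = ∑ p : U × U, (if p ∈ E then X else 0) := by
          rw [Finset.sum_comm]
          exact Finset.sum_congr rfl fun p _ => h1 p
      _ = X * (E.card : ℤ) := by
          rw [Finset.sum_ite_mem, Finset.univ_inter, Finset.sum_const, nsmul_eq_mul, mul_comm]
  have h4 : N ^ 2 - 4 * 4 ^ m * N ≤ (E.card : ℤ) := le_of_mul_le_mul_left h3 hXpos
  have h5 : (E.card : ℤ) ≤ ∑ b : U, (((univ : Finset U).filter (fun b' => eqv T b b')).card : ℤ) := by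
    have h6 : E.card ≤ ∑ b : U, ((univ : Finset U).filter (fun b' => eqv T b b')).card := by
      rw [← Finset.card_sigma]
      refine Finset.card_le_card_of_injOn (fun p => ⟨p.1, p.2⟩) ?_ ?_
      · intro p hp
        have hp' := (Finset.mem_filter.1 (by exact_mod_cast hp)).2
        simp only [Finset.coe_sigma, Set.mem_sigma_iff, Finset.mem_coe, Finset.mem_univ, true_and,
          Finset.mem_filter]
        exact eqv_of T _ _ (fun x hx => hp' ⟨x, hx⟩)
      · intro p _ q _ h
        simp only [Sigma.mk.injEq, heq_eq_eq] at h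
        exact Prod.ext h.1 h.2
    exact_mod_cast h6
  have h6 : ∀ b : U, 2 * (((univ : Finset U).filter (fun b' => eqv T b b')).card : ℤ) ≤
      N + (if b = 0 then N else 0) := by
    intro b
    split_ifs with hb
    · have : ((univ : Finset U).filter (fun b' => eqv T b b')).card ≤ Fintype.card U :=
        Finset.card_le_univ _
      have : (((univ : Finset U).filter (fun b' => eqv T b b')).card : ℤ) ≤ N := by
        rw [hN]; exact_mod_cast this
      linarith
    · have h7 : 2 * ((univ : Finset U).filter (fun b' => eqv T b b')).card ≤ Fintype.card U := by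
        by_contra h8
        push Not at h8
        exact hcon b ⟨hb, h8⟩
      have : (2 * (((univ : Finset U).filter (fun b' => eqv T b b')).card) : ℤ) ≤ N := by
        rw [hN]; exact_mod_cast h7
      linarith
  have h7 : 2 * ∑ b : U, (((univ : Finset U).filter (fun b' => eqv T b b')).card : ℤ) ≤
      N ^ 2 + N := by
    rw [Finset.mul_sum]
    refine (Finset.sum_le_sum fun b _ => h6 b).trans (le_of_eq ?_)
    rw [Finset.sum_add_distrib, Finset.sum_ite_eq']
    simp [hN]; ring
  have h8 : (4 : ℤ) ^ (m + 2) ≤ N := by rw [hN]; exact_mod_cast hU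
  have h9 : (1 : ℤ) ≤ 4 ^ m := one_le_pow₀ (by norm_num)
  have h10 : (4 : ℤ) ^ (m + 2) = 16 * 4 ^ m := by ring
  rw [h10] at h8
  nlinarith

end Pool.Agent.WLSRG
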