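import Mathlib

/-!
Switched affine polar graphs.  `V` is a finite vector space over `ZMod 2`, `c : V → ZMod 2` is an
arbitrary function.  The graph `gr c` on `V × Dual V` joins distinct `(v,x)`, `(w,z)` iff
`(x+z)(v+w) = c v + c w`.  It is strongly regular.
-/

set_option autoImplicit false

open Finset

set_option linter.unusedSectionVars false

namespace Pool.Agent.WLSRG

/-- the sign character of `ZMod 2` -/
def sg (a : ZMod 2) : ℤ := if a = 0 then 1 else -1

theorem sg_zero : sg 0 = 1 := rfl
theorem sg_one : sg 1 = -1 := by decide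
theorem sg_add : ∀ a b : ZMod 2, sg (a + b) = sg a * sg b := by decide
theorem sg_mul_self : ∀ a : ZMod 2, sg a * sg a = 1 := by decide
theorem sg_inj : ∀ a b : ZMod 2, sg a = sg b → a = b := by decide
theorem add_self2 : ∀ a : ZMod 2, a + a = 0 := by decide
theorem ind_eq (a : ZMod 2) : (2 * (if a = 0 then 1 else 0) : ℤ) = 1 + sg a := by
  revert a; decide

section
variable {A : Type*} [AddCommGroup A] [Fintype A]

theorem sum_sg_zero (φ : A →+ ZMod 2) (h : ∃ a, φ a ≠ 0) : ∑ a, sg (φ a) = 0 := by
  obtain ⟨a0, h0⟩ := h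
  have h1 : φ a0 = 1 := by
    have : ∀ z : ZMod 2, z ≠ 0 → z = 1 := by decide
    exact this _ h0
  have h2 : ∑ a, sg (φ a) = ∑ a, sg (φ (a + a0)) :=
    (Equiv.sum_comp (Equiv.addRight a0) (fun a => sg (φ a))).symm
  have h3 : ∀ a, sg (φ (a + a0)) = - sg (φ a) := by
    intro a
    rw [map_add, sg_add, h1, sg_one]; ring
  simp only [h3, Finset.sum_neg_distrib] at h2
  omega
end

variable {V : Type*} [AddCommGroup V] [Module (ZMod 2) V]

theorem add_self_V (v : V) : v + v = 0 := by
  have : (2 : ZMod 2) • v = 0 := by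
    have h : (2 : ZMod 2) = 0 := by decide
    rw [h, zero_smul]
  rwa [two_smul] at this

theorem add_eq_zero_iff_V (v w : V) : v + w = 0 ↔ v = w := by
  constructor
  · intro h
    calc v = v + (w + w) := by rw [add_self_V, add_zero]
      _ = (v + w) + w := by abel
      _ = w := by rw [h, zero_add]
  · rintro rfl; exact add_self_V v

/-- dual space -/
abbrev Du (V : Type*) [AddCommGroup V] [Module (ZMod 2) V] := Module.Dual (ZMod 2) V

instance finDu [Finite V] : Finite (Du V) := DFunLike.finite (Du V)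

noncomputable instance ftDu [Finite V] : Fintype (Du V) := Fintype.ofFinite _

noncomputable instance deDu : DecidableEq (Du V) := Classical.decEq _

/-- vertex type -/
abbrev Vx (V : Type*) [AddCommGroup V] [Module (ZMod 2) V] := V × Du V

/-- exponent of the Hadamard matrix -/
def ex (c : V → ZMod 2) (p q : Vx V) : ZMod 2 := (p.2 + q.2) (p.1 + q.1) + (c p.1 + c q.1)

/-- entry of the Hadamard matrix -/
def Hm (c : V → ZMod 2) (p q : Vx V) : ℤ := sg (ex c p q)

theorem ex_symm (c : V → ZMod 2) (p q : Vx V) : ex c p q = ex c q p := by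
  unfold ex; rw [add_comm p.2, add_comm p.1, add_comm (c p.1)]

theorem ex_self (c : V → ZMod 2) (p : Vx V) : ex c p p = 0 := by
  unfold ex; rw [add_self_V p.1, map_zero, add_self2, add_zero]

theorem ex_eq (c : V → ZMod 2) (p q : Vx V) : ex c p q =
    p.2 p.1 + p.2 q.1 + q.2 p.1 + q.2 q.1 + c p.1 + c q.1 := by
  unfold ex; simp only [LinearMap.add_apply, map_add]; ring

/-- the graph -/
def gr (c : V → ZMod 2) : SimpleGraph (Vx V) where
  Adj p q := p ≠ q ∧ ex c p q = 0
  symm := ⟨fun p q h => ⟨h.1.symm, by rw [ex_symm]; exact h.2⟩⟩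
  loopless := ⟨fun p h => h.1 rfl⟩

noncomputable instance (c : V → ZMod 2) : DecidableRel (gr c).Adj := Classical.decRel _

/-- triple invariant -/
def th (c : V → ZMod 2) (p q t : Vx V) : ZMod 2 :=
  p.2 (q.1 + t.1) + q.2 (p.1 + t.1) + t.2 (p.1 + q.1) +
    (c p.1 + c q.1 + c t.1 + c (p.1 + q.1 + t.1))

variable [Fintype V] [DecidableEq V]

theorem sum_dual (v : V) : ∑ s : Du V, sg (s v) = if v = 0 then (Fintype.card (Du V) : ℤ) else 0 := by
  split_ifs with h
  · subst h; simp [sg_zero]
  · have h1 : ∃ s : Du V, s v ≠ 0 := by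
      by_contra hc
      push Not at hc
      exact h ((Module.forall_dual_apply_eq_zero_iff (ZMod 2) v).1 hc)
    exact sum_sg_zero ((LinearMap.applyₗ v : Du V →ₗ[ZMod 2] ZMod 2).toAddMonoidHom) (by simpa using h1)

theorem sum_vec (s : Du V) : ∑ v : V, sg (s v) = if s = 0 then (Fintype.card V : ℤ) else 0 := by
  split_ifs with h
  · subst h; simp [sg_zero]
  · have h1 : ∃ v, s v ≠ 0 := by
      by_contra hc
      push Not at hc
      exact h (LinearMap.ext hc)
    exact sum_sg_zero s.toAddMonoidHom (by simpa using h1)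

theorem card_dual : Fintype.card (Du V) = Fintype.card V := by
  have h : Module.finrank (ZMod 2) (Du V) = Module.finrank (ZMod 2) V := Subspace.dual_finrank_eq
  rw [Module.card_eq_pow_finrank (K := ZMod 2) (V := Du V),
    Module.card_eq_pow_finrank (K := ZMod 2) (V := V), h]

theorem row_sum (c : V → ZMod 2) (p : Vx V) : ∑ r : Vx V, Hm c p r = Fintype.card V := by
  rw [Fintype.sum_prod_type]
  have h : ∀ l : V, ∑ s : Du V, Hm c p (l, s) = if p.1 + l = 0 then (Fintype.card V : ℤ) else 0 := by
    intro l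
    have h1 : ∀ s : Du V, Hm c p (l, s) = sg (p.2 (p.1 + l) + (c p.1 + c l)) * sg (s (p.1 + l)) := by
      intro s
      unfold Hm ex
      rw [← sg_add]; congr 1
      simp only [LinearMap.add_apply]; ring
    simp only [h1, ← Finset.mul_sum, sum_dual, card_dual]
    split_ifs with h2
    · have h3 : p.1 = l := (add_eq_zero_iff_V _ _).1 h2
      rw [h2, h3, map_zero, add_self2, add_zero, sg_zero, one_mul]
    · simp
  simp only [h]
  rw [Finset.sum_eq_single p.1]
  · simp [add_self_V]
  · intro l _ hl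
    rw [if_neg]; intro h2; exact hl ((add_eq_zero_iff_V _ _).1 h2).symm
  · simp

theorem orth (c : V → ZMod 2) (p q : Vx V) :
    ∑ r : Vx V, Hm c p r * Hm c q r = if p = q then (Fintype.card V : ℤ) ^ 2 else 0 := by
  rw [Fintype.sum_prod_type]
  have h : ∀ l : V, ∑ s : Du V, Hm c p (l, s) * Hm c q (l, s) =
      if p.1 + q.1 = 0 then (Fintype.card V : ℤ) * sg ((p.2 + q.2) (p.1 + l)) else 0 := by
    intro l
    have h1 : ∀ s : Du V, Hm c p (l, s) * Hm c q (l, s) =
        sg (p.2 (p.1 + l) + q.2 (q.1 + l) + (c p.1 + c q.1)) * sg (s (p.1 + q.1)) := by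
      intro s
      unfold Hm ex
      rw [← sg_add, ← sg_add]; congr 1
      simp only [LinearMap.add_apply, map_add]
      have := add_self2 (s l)
      have h2 := add_self2 (c l)
      linear_combination this + h2
    simp only [h1, ← Finset.mul_sum, sum_dual, card_dual]
    split_ifs with h2
    · have h3 : p.1 = q.1 := (add_eq_zero_iff_V _ _).1 h2
      rw [h3, add_self2, add_zero, LinearMap.add_apply, mul_comm]
    · simp
  simp only [h]
  by_cases h2 : p.1 + q.1 = 0
  · simp only [h2, if_true, ← Finset.mul_sum]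
    have h3 : ∑ l : V, sg ((p.2 + q.2) (p.1 + l)) = ∑ l : V, sg ((p.2 + q.2) l) :=
      Equiv.sum_comp (Equiv.addLeft p.1) (fun l => sg ((p.2 + q.2) l))
    rw [h3, sum_vec]
    have h4 : p.1 = q.1 := (add_eq_zero_iff_V _ _).1 h2
    have h5 : p.2 + q.2 = 0 ↔ p = q := by
      rw [add_eq_zero_iff_V, Prod.ext_iff]
      exact ⟨fun h => ⟨h4, h⟩, fun h => h.2⟩
    by_cases h6 : p = q
    · rw [if_pos (h5.2 h6), if_pos h6]; ring
    · rw [if_neg (fun h => h6 (h5.1 h)), if_neg h6, mul_zero]
  · simp only [h2, if_false, Finset.sum_const_zero]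
    rw [if_neg]; rintro rfl; exact h2 (add_self_V _)

theorem triple (c : V → ZMod 2) (p q t : Vx V) :
    ∑ r : Vx V, Hm c p r * Hm c q r * Hm c t r = (Fintype.card V : ℤ) * sg (th c p q t) := by
  rw [Fintype.sum_prod_type]
  have h : ∀ l : V, ∑ s : Du V, Hm c p (l, s) * Hm c q (l, s) * Hm c t (l, s) =
      if (p.1 + q.1 + t.1) + l = 0 then (Fintype.card V : ℤ) * sg (th c p q t) else 0 := by
    intro l
    have h1 : ∀ s : Du V, Hm c p (l, s) * Hm c q (l, s) * Hm c t (l, s) =
        sg (p.2 (p.1 + l) + q.2 (q.1 + l) + t.2 (t.1 + l) + (c p.1 + c q.1 + c t.1 + c l)) *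
          sg (s ((p.1 + q.1 + t.1) + l)) := by
      intro s
      unfold Hm ex
      rw [← sg_add, ← sg_add, ← sg_add]; congr 1
      simp only [LinearMap.add_apply, map_add]
      have := add_self2 (s l)
      have h2 := add_self2 (c l)
      linear_combination this + h2
    simp only [h1, ← Finset.mul_sum, sum_dual, card_dual]
    split_ifs with h2
    · have h3 : p.1 + q.1 + t.1 = l := (add_eq_zero_iff_V _ _).1 h2
      rw [mul_comm]; congr 2
      unfold th
      subst h3
      simp only [map_add]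
      have h4 := add_self2 (p.2 p.1)
      have h5 := add_self2 (q.2 q.1)
      have h6 := add_self2 (t.2 t.1)
      linear_combination h4 + h5 + h6
    · simp
  simp only [h]
  rw [Finset.sum_eq_single (p.1 + q.1 + t.1)]
  · simp [add_self_V]
  · intro l _ hl
    rw [if_neg]; intro h2; exact hl ((add_eq_zero_iff_V _ _).1 h2).symm
  · simp

end Pool.Agent.WLSRG
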