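import Pool.Agent.WLSRG.Graph

/-! An isomorphism between two graphs `gr c`, `gr c'` gives an affine equivalence of `c`, `c'`. -/

set_option autoImplicit false
set_option linter.unusedSectionVars false

open Finset

namespace Pool.Agent.WLSRG

variable {V : Type*} [AddCommGroup V] [Module (ZMod 2) V] [Fintype V] [DecidableEq V]

theorem two0 : (2 : ZMod 2) = 0 := by decide

theorem ex_zero_iff (c : V → ZMod 2) (p q : Vx V) : ex c p q = 0 ↔ p = q ∨ (gr c).Adj p q := by
  constructor
  · intro h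
    by_cases hpq : p = q
    · exact Or.inl hpq
    · exact Or.inr ⟨hpq, h⟩
  · rintro (rfl | h)
    · exact ex_self c _
    · exact h.2

theorem ex_iso {c c' : V → ZMod 2} (Φ : gr c ≃g gr c') (p q : Vx V) :
    ex c' (Φ p) (Φ q) = ex c p q := by
  have h : ∀ a b : ZMod 2, (a = 0 ↔ b = 0) → a = b := by decide
  apply h
  rw [ex_zero_iff, ex_zero_iff, Φ.map_adj_iff, Φ.injective.eq_iff]

theorem th_iso {c c' : V → ZMod 2} (Φ : gr c ≃g gr c') (p q t : Vx V) :
    th c' (Φ p) (Φ q) (Φ t) = th c p q t := by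
  have h1 := triple c' (Φ p) (Φ q) (Φ t)
  have h2 := triple c p q t
  have h3 : ∑ r : Vx V, Hm c' (Φ p) r * Hm c' (Φ q) r * Hm c' (Φ t) r =
      ∑ r : Vx V, Hm c' (Φ p) (Φ r) * Hm c' (Φ q) (Φ r) * Hm c' (Φ t) (Φ r) :=
    (Equiv.sum_comp Φ.toEquiv (fun r => Hm c' (Φ p) r * Hm c' (Φ q) r * Hm c' (Φ t) r)).symm
  have h4 : ∀ a b, Hm c' (Φ a) (Φ b) = Hm c a b := fun a b => by unfold Hm; rw [ex_iso]
  simp only [h4] at h3
  rw [h3, h2] at h1
  have hN : (Fintype.card V : ℤ) ≠ 0 := by
    have : 0 < Fintype.card V := Fintype.card_pos_iff.2 ⟨0⟩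
    omega
  exact (sg_inj _ _ (mul_left_cancel₀ hN h1)).symm

/-- third derivative -/
def d3 (c : V → ZMod 2) (v w m l : V) : ZMod 2 :=
  c v + c w + c m + c l + c (v + w + m) + c (v + w + l) + c (v + m + l) + c (w + m + l)

theorem dth (c : V → ZMod 2) (p q r s : Vx V) :
    th c p q r + th c p q s + th c p r s + th c q r s = d3 c p.1 q.1 r.1 s.1 := by
  unfold th d3
  simp only [map_add]
  linear_combination (p.2 q.1 + p.2 r.1 + p.2 s.1 + q.2 p.1 + q.2 r.1 + q.2 s.1 + r.2 p.1 +
    r.2 q.1 + r.2 s.1 + s.2 p.1 + s.2 q.1 + s.2 r.1 + c p.1 + c q.1 + c r.1 + c s.1) * two0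

/-- every first derivative of `c` is non-affine -/
def NA (c : V → ZMod 2) : Prop := ∀ v w, v ≠ w → ∃ m l, d3 c v w m l ≠ 0

theorem d3_self (c : V → ZMod 2) (v m l : V) : d3 c v v m l = 0 := by
  unfold d3
  rw [add_self_V v, zero_add, zero_add]
  linear_combination (c v + c m + c l + c (v + m + l)) * two0

theorem block_iff {c : V → ZMod 2} (hc : NA c) (p q : Vx V) : p.1 = q.1 ↔
    ∀ r s, th c p q r + th c p q s + th c p r s + th c q r s = 0 := by
  constructor
  · intro h r s
    rw [dth, h, d3_self]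
  · intro h
    by_contra hne
    obtain ⟨m, l, hml⟩ := hc _ _ hne
    apply hml
    have := h (m, 0) (l, 0)
    rwa [dth] at this

theorem block_iso {c c' : V → ZMod 2} (hc : NA c) (hc' : NA c') (Φ : gr c ≃g gr c') (p q : Vx V) :
    (Φ p).1 = (Φ q).1 ↔ p.1 = q.1 := by
  rw [block_iff (c := c') hc' (Φ p) (Φ q), block_iff (c := c) hc p q]
  constructor
  · intro h r s
    have := h (Φ r) (Φ s)
    simpa only [th_iso] using this
  · intro h r s
    obtain ⟨r, rfl⟩ := Φ.surjective r
    obtain ⟨s, rfl⟩ := Φ.surjective s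
    simpa only [th_iso] using h r s

theorem iso_affine {c c' : V → ZMod 2} (hc : NA c) (hc' : NA c') (Φ : gr c ≃g gr c') :
    ∃ α : V → V, Function.Bijective α ∧ (∀ a b, α (a + b) = α a + α b + α 0) ∧
      ∀ v w m, (c' (α (v + w + m)) + c (v + w + m)) =
        (c' (α v) + c v) + (c' (α w) + c w) + (c' (α m) + c m) := by
  set α : V → V := fun v => (Φ (v, 0)).1 with hα
  have hb : ∀ v x, (Φ (v, x)).1 = α v := fun v x => (block_iso hc hc' Φ (v, x) (v, 0)).2 rfl
  have hinj : Function.Injective α := fun v w h => (block_iso hc hc' Φ (v, 0) (w, 0)).1 h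
  have hbij : Function.Bijective α := Finite.injective_iff_bijective.1 hinj
  -- surjectivity on functionals
  have hs : ∀ v (y : Du V), ∃ x : Du V, ∀ w, y (α v + α w) = x (v + w) := by
    intro v y
    obtain ⟨⟨v', x⟩, h⟩ := Φ.surjective (α v, y + (Φ (v, 0)).2)
    have hv : v' = v := by
      apply hinj
      rw [← hb v' x, h]
    subst hv
    refine ⟨x, fun w => ?_⟩
    have h1 := th_iso Φ (v', x) (v', 0) (w, 0)
    rw [h] at h1
    unfold th at h1
    simp only [hb, add_self_V, map_zero, LinearMap.zero_apply, zero_add, add_zero,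
      LinearMap.add_apply] at h1
    linear_combination h1 - (Φ (v', 0)).2 (α v' + α w) * two0
  have hadd : ∀ a b, α (a + b) = α a + α b + α 0 := by
    intro a b
    have h0 : ∀ y : Du V, y (α (a + b) + (α a + α b + α 0)) = 0 := by
      intro y
      obtain ⟨x, hx⟩ := hs 0 y
      have e1 := hx (a + b)
      have e2 := hx a
      have e3 := hx b
      simp only [zero_add, map_add] at e1 e2 e3 ⊢
      linear_combination e1 + e2 + e3 - (y (α 0)) * two0 + (x a + x b) * two0
    have h1 := (Module.forall_dual_apply_eq_zero_iff (ZMod 2) _).1 h0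
    exact (add_eq_zero_iff_V _ _).1 h1
  refine ⟨α, hbij, hadd, fun v w m => ?_⟩
  set E : V → Du V := fun v => (Φ (v, 0)).2 with hE
  have hg : ∀ v w, (c' (α v) + c v) + (c' (α w) + c w) = (E v + E w) (α v + α w) := by
    intro v w
    have h1 := ex_iso Φ (v, 0) (w, 0)
    unfold ex at h1
    simp only [hb, add_zero, LinearMap.zero_apply, zero_add] at h1
    have h2 : (E v + E w) (α v + α w) + (c' (α v) + c' (α w)) = c v + c w := h1
    linear_combination -h2 + (c' (α v) + c' (α w)) * two0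
  have h4 : α (v + w + m) = α v + α w + α m := by
    rw [hadd, hadd]
    have := add_self_V (α 0)
    calc α v + α w + α 0 + α m + α 0 = α v + α w + α m + (α 0 + α 0) := by abel
      _ = _ := by rw [this, add_zero]
  have e12 := hg v w
  have e13 := hg v m
  have e23 := hg w m
  have e14 := hg v (v + w + m)
  have e24 := hg w (v + w + m)
  have e34 := hg m (v + w + m)
  rw [h4] at e14 e24 e34
  rw [h4]
  simp only [LinearMap.add_apply, map_add] at e12 e13 e23 e14 e24 e34
  set F := E (v + w + m)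
  linear_combination e12 + e13 + e23 + e14 + e24 + e34 + (-(c' (α v + α w + α m) + c (v + w + m))
    - 2 * ((c' (α v) + c v) + (c' (α w) + c w) + (c' (α m) + c m)) +
    (2 * E v (α v) + E v (α w) + E v (α m) + E w (α v) + 2 * E w (α w) + E w (α m) +
      E m (α v) + E m (α w) + 2 * E m (α m) + 2 * F (α v) + 2 * F (α w) + 2 * F (α m))) * two0

end Pool.Agent.WLSRG
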