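import Pool.Agent.WLSRG.Twist

/-!
`cf 0` and `cf (Pi.single b0 1)` are not affinely equivalent (modulo affine functions).
-/

set_option autoImplicit false
set_option linter.unusedSectionVars false

open Finset

namespace Pool.Agent.WLSRG

variable {U : Type*} [AddCommGroup U] [Module (ZMod 2) U] [DecidableEq U] [Fintype U]

noncomputable instance ftQ : Fintype (Qs U) := Fintype.ofFinite _

theorem lw_self {a b : U} (hb : b ≠ 0) (hab : a ≠ b) : lw a b a = 1 := by
  rw [lw_apply, if_pos rfl, if_neg hab, if_neg]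
  · rfl
  · intro h
    apply hb
    have : a + 0 = a + b := by rw [add_zero]; exact h
    exact (add_left_cancel this).symm

theorem lw_off {a b z : U} (h1 : z ≠ a) (h2 : z ≠ b) (h3 : z ≠ a + b) : lw a b z = 0 := by
  rw [lw_apply, if_neg h1, if_neg h2, if_neg h3]; rfl

/-- evaluation functional -/
def evq (a : U) : Qs U →+ ZMod 2 where
  toFun y := (y : U → ZMod 2) a
  map_zero' := rfl
  map_add' _ _ := rfl

noncomputable def Sm (t : U → ZMod 2) (w : U × Qs U) : ℤ :=
  ∑ x : U × Qs U, sg (cf t (x + w) + cf t x)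

theorem sg_le (a : ZMod 2) : sg a ≤ 1 := by revert a; decide
theorem neg_le_sg (a : ZMod 2) : -1 ≤ sg a := by revert a; decide

theorem abs_sum_sg {ι : Type*} [Fintype ι] (f : ι → ZMod 2) :
    |∑ i, sg (f i)| ≤ Fintype.card ι := by
  calc |∑ i, sg (f i)| ≤ ∑ i : ι, |sg (f i)| := Finset.abs_sum_le_sum_abs _ _
    _ ≤ ∑ i : ι, (1 : ℤ) := Finset.sum_le_sum fun i _ =>
        abs_le.2 ⟨neg_le_sg _, sg_le _⟩
    _ = _ := by simp

theorem Sm_line (t : U → ZMod 2) {a b : U} (ha : a ≠ 0) (hb : b ≠ 0) (hab : a ≠ b) :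
    (Fintype.card (Qs U) : ℤ) * ((Fintype.card U : ℤ) - 8) ≤
      Sm t (0, ⟨lw a b, lw_mem ha hb hab⟩) := by
  unfold Sm
  rw [Fintype.sum_prod_type]
  have h1 : ∀ u : U, (Fintype.card (Qs U) : ℤ) * (1 - 2 * ((if u = a then 1 else 0) +
      (if u = b then 1 else 0) + (if u = a + b then 1 else 0)) - 2 * (if u = 0 then 1 else 0)) ≤
      ∑ y : Qs U, sg (cf t ((u, y) + (0, ⟨lw a b, lw_mem ha hb hab⟩)) + cf t (u, y)) := by
    intro u
    by_cases hu : u = 0
    · subst hu
      rw [if_neg ha.symm, if_neg hb.symm, if_pos rfl]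
      have h2 := abs_sum_sg (fun y : Qs U =>
        (cf t ((0, y) + (0, ⟨lw a b, lw_mem ha hb hab⟩)) + cf t (0, y)))
      have h3 := (abs_le.1 h2).1
      have h4 : (0 : ℤ) ≤ Fintype.card (Qs U) := by positivity
      have h5 : (0 : ℤ) ≤ if (0 : U) = a + b then 1 else 0 := by split_ifs <;> norm_num
      nlinarith
    · have h2 : ∀ y : Qs U, cf t ((u, y) + (0, ⟨lw a b, lw_mem ha hb hab⟩)) + cf t (u, y) =
          lw a b u := by
        intro y
        rw [Prod.mk_add_mk, add_zero, cf_ne hu, cf_ne hu]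
        simp only [Submodule.coe_add, Pi.add_apply]
        linear_combination ((y : U → ZMod 2) u + t u) * two0
      simp only [h2, Finset.sum_const, Finset.card_univ, nsmul_eq_mul, if_neg hu]
      apply mul_le_mul_of_nonneg_left _ (by positivity)
      rw [lw_apply]
      split_ifs <;> norm_num [sg] <;> decide
  refine le_trans (le_of_eq ?_) (Finset.sum_le_sum fun u _ => h1 u)
  rw [← Finset.mul_sum]
  congr 1
  simp only [Finset.sum_sub_distrib, ← Finset.mul_sum, Finset.sum_add_distrib,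
    Finset.sum_ite_eq', Finset.mem_univ, if_true, Finset.sum_const, Finset.card_univ]
  simp; ring

theorem Sm_off (h16 : 16 ≤ Fintype.card U) (t : U → ZMod 2) {a : U} (ha : a ≠ 0) (q : Qs U) :
    |Sm t (a, q)| ≤ 2 * Fintype.card (Qs U) := by
  unfold Sm
  rw [Fintype.sum_prod_type]
  set F : U → ℤ := fun u => ∑ y : Qs U, sg (cf t ((u, y) + (a, q)) + cf t (u, y)) with hF
  have h0 : ∀ u, u ∉ ({0, a} : Finset U) → F u = 0 := by
    intro u hu
    simp only [Finset.mem_insert, Finset.mem_singleton, not_or] at hu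
    have hua : u + a ≠ 0 := fun h => hu.2 ((add_eq_zero_iff_V _ _).1 h)
    have h2 : ∀ y : Qs U, sg (cf t ((u, y) + (a, q)) + cf t (u, y)) =
        sg ((q : U → ZMod 2) (u + a) + t (u + a) + t u) * sg ((evq (u + a) + evq u) y) := by
      intro y
      rw [← sg_add, Prod.mk_add_mk, cf_ne hu.1, cf_ne hua]
      congr 1
      simp only [Submodule.coe_add, Pi.add_apply, AddMonoidHom.add_apply, evq,
        AddMonoidHom.coe_mk, ZeroHom.coe_mk]
      ring
    simp only [hF, h2, ← Finset.mul_sum]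
    rw [sum_sg_zero, mul_zero]
    obtain ⟨b, hb⟩ := avoid ([0, u, a, u + a] : List U) (by simp; omega)
    simp only [List.mem_cons, List.not_mem_nil, or_false, not_or] at hb
    refine ⟨⟨lw u b, lw_mem hu.1 hb.1 (Ne.symm hb.2.1)⟩, ?_⟩
    simp only [AddMonoidHom.add_apply, evq, AddMonoidHom.coe_mk, ZeroHom.coe_mk]
    rw [lw_self hb.1 (Ne.symm hb.2.1), lw_off]
    · decide
    · intro h
      have : u + a = u + 0 := by rw [add_zero]; exact h
      exact ha (add_left_cancel this)
    · exact Ne.symm hb.2.2.2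
    · intro h; exact hb.2.2.1 (add_left_cancel h).symm
  have h3 : ∑ u, F u = ∑ u ∈ ({0, a} : Finset U), F u :=
    (Finset.sum_subset (Finset.subset_univ _) (fun u _ hu => h0 u hu)).symm
  rw [h3, Finset.sum_pair ha.symm]
  have h4 : ∀ u, |F u| ≤ Fintype.card (Qs U) := fun u => abs_sum_sg _
  calc |F 0 + F a| ≤ |F 0| + |F a| := abs_add_le _ _
    _ ≤ _ := by linarith [h4 0, h4 a]

theorem trace_zero (f : U →ₗ[ZMod 2] Qs U) : ∑ u : U, (f u : U → ZMod 2) u = 0 := by
  set b := Module.finBasis (ZMod 2) U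
  have h1 : ∀ u : U, (f u : U → ZMod 2) u = ∑ i, (f (b i) : U → ZMod 2) u * b.coord i u := by
    intro u
    conv_lhs => rw [← b.sum_repr u]
    rw [map_sum]
    simp only [map_smul, Submodule.coe_sum, Finset.sum_apply, Submodule.coe_smul, Pi.smul_apply,
      smul_eq_mul, Module.Basis.coord_apply]
    refine Finset.sum_congr rfl fun i _ => ?_
    rw [b.sum_repr, mul_comm]
  simp only [h1]
  rw [Finset.sum_comm]
  refine Finset.sum_eq_zero fun i _ => ?_
  have h2 := congrArg (b.coord i) (Q_sum (f (b i)).2)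
  rw [map_sum, map_zero] at h2
  simpa only [map_smul, smul_eq_mul] using h2

theorem sum_hom_zero (h16 : 16 ≤ Fintype.card U) (φ : U →+ ZMod 2) : ∑ u, φ u = 0 := by
  obtain ⟨a, ha, hφ⟩ : ∃ a : U, a ≠ 0 ∧ φ a = 0 := by
    obtain ⟨a, ha⟩ := avoid ([0] : List U) (by simp; omega)
    obtain ⟨b, hb⟩ := avoid ([0, a] : List U) (by simp; omega)
    simp only [List.mem_cons, List.not_mem_nil, or_false, not_or] at ha hb
    by_cases h1 : φ a = 0
    · exact ⟨a, ha, h1⟩
    · by_cases h2 : φ b = 0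
      · exact ⟨b, hb.1, h2⟩
      · refine ⟨a + b, fun h => hb.2 ((add_eq_zero_iff_V a b).1 h).symm, ?_⟩
        rw [map_add]
        have : ∀ x y : ZMod 2, x ≠ 0 → y ≠ 0 → x + y = 0 := by decide
        exact this _ _ h1 h2
  refine Finset.sum_involution (fun u _ => u + a) ?_ ?_ ?_ ?_
  · intro u _
    rw [map_add, hφ, add_zero, add_self2]
  · intro u _ _ h
    apply ha
    have : u + a = u + 0 := by rw [add_zero]; exact h
    exact add_left_cancel this
  · intro u _; exact Finset.mem_univ _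
  · intro u _
    rw [add_assoc, add_self_V, add_zero]

end Pool.Agent.WLSRG
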