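import Pool.Agent.WLSRG.Iso

/-!
The functions `cf t` on `V = U × Q`, where `Q` is spanned by the line words in `U → ZMod 2`.
-/

set_option autoImplicit false
set_option linter.unusedSectionVars false

open Finset

namespace Pool.Agent.WLSRG

variable {U : Type*} [AddCommGroup U] [Module (ZMod 2) U] [DecidableEq U]

/-- line word -/
def lw (a b : U) : U → ZMod 2 := Pi.single a 1 + Pi.single b 1 + Pi.single (a + b) 1

variable (U) in
/-- the span of all line words (the Hamming code) -/
def Qs : Submodule (ZMod 2) (U → ZMod 2) :=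
  Submodule.span (ZMod 2) {q | ∃ a b : U, a ≠ 0 ∧ b ≠ 0 ∧ a ≠ b ∧ q = lw a b}

theorem lw_mem {a b : U} (ha : a ≠ 0) (hb : b ≠ 0) (hab : a ≠ b) : lw a b ∈ Qs U :=
  Submodule.subset_span ⟨a, b, ha, hb, hab, rfl⟩

theorem lw_apply (a b u : U) : lw a b u = (if u = a then 1 else 0) + (if u = b then 1 else 0) +
    (if u = a + b then 1 else 0) := by
  simp [lw, Pi.single_apply]

theorem Q_zero {q : U → ZMod 2} (hq : q ∈ Qs U) : q 0 = 0 := by
  induction hq using Submodule.span_induction with
  | mem x h =>
    obtain ⟨a, b, ha, hb, hab, rfl⟩ := h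
    rw [lw_apply, if_neg ha.symm, if_neg hb.symm, if_neg]
    · rfl
    · intro h; exact hab ((add_eq_zero_iff_V a b).1 h.symm)
  | zero => rfl
  | add x y _ _ hx hy => rw [Pi.add_apply, hx, hy, add_zero]
  | smul a x _ hx => rw [Pi.smul_apply, hx, smul_zero]

theorem Q_sum [Fintype U] {q : U → ZMod 2} (hq : q ∈ Qs U) : ∑ u : U, q u • u = 0 := by
  induction hq using Submodule.span_induction with
  | mem x h =>
    obtain ⟨a, b, ha, hb, hab, rfl⟩ := h
    simp only [lw_apply, add_smul, Finset.sum_add_distrib, ite_smul, one_smul, zero_smul,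
      Finset.sum_ite_eq', Finset.mem_univ, if_true]
    exact add_self_V (a + b)
  | zero => simp
  | add x y _ _ hx hy => simp only [Pi.add_apply, add_smul, Finset.sum_add_distrib, hx, hy, add_zero]
  | smul a x _ hx =>
    have : ∀ u : U, (a • x) u • u = a • (x u • u) := fun u => by
      rw [Pi.smul_apply, smul_assoc]
    simp only [this, ← Finset.smul_sum, hx, smul_zero]

noncomputable instance deQ : DecidableEq (Qs U) := Classical.decEq _

/-- the twisted functions -/
noncomputable def cf (t : U → ZMod 2) (v : U × Qs U) : ZMod 2 :=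
  if v.1 = 0 then (if v.2 = 0 then 1 else 0) else (v.2 : U → ZMod 2) v.1 + t v.1

theorem cf_ne {t : U → ZMod 2} {u : U} (hu : u ≠ 0) (y : Qs U) :
    cf t (u, y) = (y : U → ZMod 2) u + t u := by
  unfold cf; rw [if_neg hu]

theorem cf_zero {t : U → ZMod 2} (y : Qs U) : cf t (0, y) = if y = 0 then 1 else 0 := by
  unfold cf; rw [if_pos rfl]

variable [Fintype U]

theorem avoid (L : List U) (h : L.length < Fintype.card U) : ∃ u, u ∉ L := by
  by_contra hc
  push Not at hc
  have h1 : (univ : Finset U) ⊆ L.toFinset := fun u _ => by simpa using hc u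
  have h2 := Finset.card_le_card h1
  have h3 := List.toFinset_card_le L
  rw [Finset.card_univ] at h2
  omega

/-- there are two different line words -/
theorem exists_three (h16 : 16 ≤ Fintype.card U) (q : Qs U) : ∃ η : Qs U, η ≠ 0 ∧ η ≠ q := by
  obtain ⟨a, ha⟩ := avoid ([0] : List U) (by simp; omega)
  obtain ⟨b, hb⟩ := avoid ([0, a] : List U) (by simp; omega)
  obtain ⟨d, hd⟩ := avoid ([0, a, b, a + b] : List U) (by simp; omega)
  simp only [List.mem_cons, List.not_mem_nil, or_false, not_or] at ha hb hd
  have e1 : (⟨lw a b, lw_mem ha hb.1 (Ne.symm hb.2)⟩ : Qs U) ≠ 0 := by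
    intro h
    have h1 := congrFun (congrArg Subtype.val h) a
    simp only [lw_apply, Submodule.coe_zero, Pi.zero_apply, if_true] at h1
    rw [if_neg (Ne.symm hb.2), if_neg] at h1
    · simp at h1
    · intro h2
      apply hb.1
      have : a + 0 = a + b := by rw [add_zero]; exact h2
      exact (add_left_cancel this).symm
  have e2 : (⟨lw a d, lw_mem ha hd.1 (Ne.symm hd.2.1)⟩ : Qs U) ≠ 0 := by
    intro h
    have h1 := congrFun (congrArg Subtype.val h) a
    simp only [lw_apply, Submodule.coe_zero, Pi.zero_apply, if_true] at h1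
    rw [if_neg (Ne.symm hd.2.1), if_neg] at h1
    · simp at h1
    · intro h2
      apply hd.1
      have : a + 0 = a + d := by rw [add_zero]; exact h2
      exact (add_left_cancel this).symm
  by_cases h1 : (⟨lw a b, lw_mem ha hb.1 (Ne.symm hb.2)⟩ : Qs U) = q
  · refine ⟨_, e2, ?_⟩
    rw [← h1]
    intro h2
    have h3 := congrFun (congrArg Subtype.val h2) d
    simp only [lw_apply, if_true] at h3
    rw [if_neg hd.2.1, if_neg hd.2.2.1, if_neg hd.2.2.2, if_neg] at h3
    · simp at h3
    · intro h4
      apply ha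
      have : d + 0 = d + a := by rw [add_zero, add_comm]; exact h4
      exact (add_left_cancel this).symm
  · exact ⟨_, e1, h1⟩

/-- the functions `cf t` have non-affine derivatives -/
theorem na_cf (h16 : 16 ≤ Fintype.card U) (t : U → ZMod 2) : NA (cf (U := U) t) := by
  intro v w hvw
  by_contra hcon
  push Not at hcon
  obtain ⟨a, rfl⟩ : ∃ a, w = v + a := ⟨v + w, by
    calc w = 0 + w := (zero_add w).symm
      _ = (v + v) + w := by rw [add_self_V]
      _ = v + (v + w) := by abel⟩
  have ha : a ≠ 0 := by rintro rfl; simp at hvw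
  set g : U × Qs U → ZMod 2 := fun x => cf t (x + a) + cf t x with hg
  have h1 : ∀ m l, g (v + m + l) = g v + g m + g l := by
    intro m l
    have h := hcon m l
    unfold d3 at h
    have e1 : v + (v + a) + m = m + a := by
      calc v + (v + a) + m = (v + v) + (m + a) := by abel
        _ = _ := by rw [add_self_V, zero_add]
    have e2 : v + (v + a) + l = l + a := by
      calc v + (v + a) + l = (v + v) + (l + a) := by abel
        _ = _ := by rw [add_self_V, zero_add]
    have e3 : v + a + m + l = v + m + l + a := by abel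
    rw [e1, e2, e3] at h
    simp only [hg]
    linear_combination h - (cf t (v) + cf t (m) + cf t l + cf t (v + a) + cf t (m + a) +
      cf t (l + a)) * two0
  have h2 : ∀ x h, g (x + h) + g x = g (v + h) + g v := by
    intro x h
    have e := h1 x (v + h)
    have e1 : v + x + (v + h) = x + h := by
      calc v + x + (v + h) = (v + v) + (x + h) := by abel
        _ = _ := by rw [add_self_V, zero_add]
    rw [e1] at e
    linear_combination e + (g x) * two0
  have h3 : ∀ x x' h, g (x + h) + g x = g (x' + h) + g x' := fun x x' h => by rw [h2 x, h2 x']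
  obtain ⟨a1, q⟩ := a
  by_cases ha1 : a1 = 0
  · subst ha1
    have hq : q ≠ 0 := by rintro rfl; exact ha rfl
    obtain ⟨η, hη0, hηq⟩ := exists_three h16 q
    obtain ⟨u, hu⟩ := avoid ([0] : List U) (by simp; omega)
    simp only [List.mem_cons, List.not_mem_nil, or_false] at hu
    have h4 := h3 (u, 0) (0, 0) (0, η)
    simp only [hg, Prod.mk_add_mk, add_zero, zero_add, cf_ne hu, cf_zero, Submodule.coe_add,
      Pi.add_apply, if_true, if_neg hη0, if_neg hq, Submodule.coe_zero, Pi.zero_apply] at h4
    rw [if_neg] at h4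
    · have h5 : ((η : U → ZMod 2) u + (q : U → ZMod 2) u + t u + ((η : U → ZMod 2) u + t u) +
        ((q : U → ZMod 2) u + t u + t u)) = 0 := by
        linear_combination ((η : U → ZMod 2) u + (q : U → ZMod 2) u + 2 * t u) * two0
      rw [h5] at h4
      exact absurd h4 (by decide)
    · intro h5; exact hηq ((add_eq_zero_iff_V η q).1 h5)
  · obtain ⟨u1, hu1⟩ := avoid ([0, a1] : List U) (by simp; omega)
    obtain ⟨u2, hu2⟩ := avoid ([0, u1, a1, u1 + a1] : List U) (by simp; omega)
    obtain ⟨u3, hu3⟩ := avoid ([0, a1, u1, u2, u1 + u2, u1 + a1, u2 + a1, u1 + u2 + a1] : List U)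
      (by simp; omega)
    simp only [List.mem_cons, List.not_mem_nil, or_false, not_or] at hu1 hu2 hu3
    obtain ⟨hu1a, hu1b⟩ := hu1
    obtain ⟨hu2a, hu2b, hu2c, hu2d⟩ := hu2
    obtain ⟨k1, k2, k3, k4, k5, k6, k7, k8⟩ := hu3
    have hmem := lw_mem hu1a hu2a (Ne.symm hu2b)
    have h4 := h3 (u1, 0) (u3, 0) (0, ⟨lw u1 u2, hmem⟩)
    have n1 : u1 + a1 ≠ 0 := fun h => hu1b ((add_eq_zero_iff_V _ _).1 h)
    have n3 : u3 + a1 ≠ 0 := fun h => k2 ((add_eq_zero_iff_V _ _).1 h)
    simp only [hg, Prod.mk_add_mk, add_zero, zero_add, cf_ne hu1a, cf_ne k1, cf_ne n1, cf_ne n3,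
      Submodule.coe_add, Pi.add_apply, Submodule.coe_zero, Pi.zero_apply] at h4
    have v1 : lw u1 u2 u1 = 1 := by
      rw [lw_apply, if_pos rfl, if_neg (Ne.symm hu2b), if_neg]
      · rfl
      · intro h
        apply hu2a
        have : u1 + 0 = u1 + u2 := by rw [add_zero]; exact h
        exact (add_left_cancel this).symm
    have v2 : lw u1 u2 (u1 + a1) = 0 := by
      rw [lw_apply, if_neg, if_neg (Ne.symm hu2d), if_neg]
      · rfl
      · intro h; exact hu2c (add_left_cancel h).symm
      · intro h
        apply ha1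
        have : u1 + a1 = u1 + 0 := by rw [add_zero]; exact h
        exact add_left_cancel this
    have v3 : lw u1 u2 u3 = 0 := by
      rw [lw_apply, if_neg k3, if_neg k4, if_neg k5]; rfl
    have v4 : lw u1 u2 (u3 + a1) = 0 := by
      have aux : ∀ z : U, u3 + a1 = z → u3 = z + a1 := by
        intro z hz
        rw [← hz, add_assoc, add_self_V, add_zero]
      rw [lw_apply, if_neg (fun h => k6 (aux _ h)), if_neg (fun h => k7 (aux _ h)),
        if_neg (fun h => k8 (aux _ h))]; rfl
    rw [v1, v2, v3, v4] at h4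
    have h5 : (1 : ZMod 2) = 0 := by
      linear_combination h4 + (-t u1 - t (u1 + a1) + t u3 + t (u3 + a1) - (q : U → ZMod 2) (u1 + a1)
        + (q : U → ZMod 2) (u3 + a1)) * two0
    exact absurd h5 (by decide)

end Pool.Agent.WLSRG
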